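import Mathlib

set_option autoImplicit false

open scoped BigOperators

namespace Pool.Agent.J4H86.PMH

/-- the sum of the first `k` entries -/
noncomputable def top {n : ℕ} (y : Fin n → ℝ) (k : ℕ) : ℝ :=
  ∑ j ∈ Finset.univ.filter (fun j : Fin n => (j : ℕ) < k), y j

theorem abel_nat (w u : ℕ → ℝ) (hw : ∀ i, w (i + 1) ≤ w i) (m : ℕ)
    (hu : ∀ k, k ≤ m + 1 → 0 ≤ ∑ i ∈ Finset.range k, u i) :
    w m * ∑ i ∈ Finset.range (m + 1), u i ≤ ∑ i ∈ Finset.range (m + 1), w i * u i := by
  induction m with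
  | zero => simp
  | succ m ih =>
    have h1 := ih (fun k hk => hu k (by omega))
    rw [Finset.sum_range_succ, Finset.sum_range_succ (fun i => w i * u i)]
    have h2 := hu (m + 1) (by omega)
    have h3 : w (m + 1) * ∑ i ∈ Finset.range (m + 1), u i ≤
        w m * ∑ i ∈ Finset.range (m + 1), u i := mul_le_mul_of_nonneg_right (hw m) h2
    rw [mul_add]
    linarith

/-- extension by zero -/
noncomputable def ext {n : ℕ} (g : Fin n → ℝ) (i : ℕ) : ℝ := if h : i < n then g ⟨i, h⟩ else 0

lemma ext_fin {n : ℕ} (g : Fin n → ℝ) (j : Fin n) : ext g j = g j := by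
  unfold ext
  rw [dif_pos j.2]

lemma sum_ext {n : ℕ} (g : Fin n → ℝ) (k : ℕ) (hk : k ≤ n) :
    ∑ i ∈ Finset.range k, ext g i = top g k := by
  unfold top
  rw [Finset.sum_filter]
  have h1 : ∑ j : Fin n, (if (j : ℕ) < k then g j else 0) =
      ∑ j : Fin n, (fun i : ℕ => if i < k then ext g i else 0) j := by
    refine Finset.sum_congr rfl fun j _ => ?_
    show _ = if (j : ℕ) < k then ext g j else 0
    rw [ext_fin]
  rw [h1, Fin.sum_univ_eq_sum_range (fun i : ℕ => if i < k then ext g i else 0) n,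
    ← Finset.sum_filter]
  refine Finset.sum_congr ?_ fun _ _ => rfl
  ext i
  simp only [Finset.mem_range, Finset.mem_filter]
  omega

theorem abel {n : ℕ} (w u : Fin n → ℝ) (hw : Antitone w) (hw0 : ∀ i, 0 ≤ w i)
    (hu : ∀ k : ℕ, k ≤ n → 0 ≤ top u k) : 0 ≤ ∑ j, w j * u j := by
  rcases Nat.eq_zero_or_pos n with hn | hn
  · subst hn
    simp
  · obtain ⟨m, rfl⟩ : ∃ m, n = m + 1 := ⟨n - 1, by omega⟩
    have hw' : ∀ i, ext w (i + 1) ≤ ext w i := by
      intro i
      unfold ext
      by_cases h1 : i + 1 < m + 1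
      · rw [dif_pos h1, dif_pos (by omega)]
        exact hw (by rw [Fin.le_def]; simp)
      · rw [dif_neg h1]
        by_cases h2 : i < m + 1
        · rw [dif_pos h2]
          exact hw0 _
        · rw [dif_neg h2]
    have h := abel_nat (ext w) (ext u) hw' m (fun k hk => by
      rw [sum_ext u k hk]
      exact hu k hk)
    have h2 : ∑ j, w j * u j = ∑ i ∈ Finset.range (m + 1), ext w i * ext u i := by
      rw [← Fin.sum_univ_eq_sum_range (fun i : ℕ => ext w i * ext u i) (m + 1)]
      refine Finset.sum_congr rfl fun j _ => ?_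
      rw [ext_fin, ext_fin]
    rw [h2]
    refine le_trans ?_ h
    apply mul_nonneg
    · unfold ext
      split_ifs
      · exact hw0 _
      · exact le_rfl
    · rw [sum_ext u (m + 1) le_rfl]
      exact hu _ le_rfl

/-- tangent line inequality for the power `Q ≥ 1` -/
theorem tangent (x y Q : ℝ) (hx : 0 ≤ x) (hy : 0 ≤ y) (hQ : 1 ≤ Q) :
    Q * x ^ (Q - 1) * (y - x) ≤ y ^ Q - x ^ Q := by
  rcases hx.eq_or_lt with h0 | hx0
  · subst h0
    rcases hQ.eq_or_lt with h1 | h1
    · subst h1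
      simp
    · have e1 : (0 : ℝ) ^ (Q - 1) = 0 := Real.zero_rpow (by linarith)
      have e2 : (0 : ℝ) ^ Q = 0 := Real.zero_rpow (by linarith)
      rw [e1, e2]
      have := Real.rpow_nonneg hy Q
      simpa using this
  · have hb := one_add_mul_self_le_rpow_one_add (s := (y - x) / x)
      (by
        rw [le_div_iff₀ hx0]
        linarith) hQ
    have e : 1 + (y - x) / x = y / x := by
      field_simp
      ring
    rw [e, Real.div_rpow hy hx0.le, le_div_iff₀ (Real.rpow_pos_of_pos hx0 Q)] at hb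
    have e2 : x ^ Q = x ^ (Q - 1) * x := by
      rw [← Real.rpow_add_one hx0.ne']
      congr 1
      ring
    have e3 : (1 + Q * ((y - x) / x)) * x ^ Q = x ^ Q + Q * x ^ (Q - 1) * (y - x) := by
      rw [add_mul, one_mul]
      congr 1
      rw [e2]
      field_simp
    rw [e3] at hb
    linarith

/-- sorting -/
theorem exists_sort {n : ℕ} (f : Fin n → ℝ) : ∃ σ : Equiv.Perm (Fin n), Antitone (f ∘ σ) := by
  refine ⟨Tuple.sort (fun i => -f i), ?_⟩
  have h := Tuple.monotone_sort (fun i => -f i)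
  intro i j hij
  have := h hij
  simp only [Function.comp_apply] at this ⊢
  linarith

theorem top_perm {n : ℕ} (f : Fin n → ℝ) (σ : Equiv.Perm (Fin n)) (k : ℕ) (hk : k ≤ n) :
    ∃ S : Finset (Fin n), S.card = k ∧ top (f ∘ σ) k = ∑ i ∈ S, f i := by
  refine ⟨(Finset.univ.filter (fun j : Fin n => (j : ℕ) < k)).map σ.toEmbedding, ?_, ?_⟩
  · rw [Finset.card_map, Fin.card_filter_val_lt]
    omega
  · unfold top
    rw [Finset.sum_map]
    rfl

/-- weak majorization gives the `l_Q` inequality -/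
theorem wm {n : ℕ} (x y : Fin n → ℝ) (hy : Antitone y) (hy0 : ∀ i, 0 ≤ y i)
    (h : ∀ S : Finset (Fin n), ∑ i ∈ S, |x i| ≤ top y S.card) (Q : ℝ) (hQ : 1 ≤ Q) :
    ∑ i, |x i| ^ Q ≤ ∑ i, y i ^ Q := by
  obtain ⟨σ, hσ⟩ := exists_sort (fun i => |x i|)
  set z : Fin n → ℝ := (fun i => |x i|) ∘ σ with hz
  have hz0 : ∀ i, 0 ≤ z i := fun i => abs_nonneg _
  have e1 : ∑ i, |x i| ^ Q = ∑ i, z i ^ Q :=
    (Equiv.sum_comp σ (fun i => |x i| ^ Q)).symm
  rw [e1]
  have h1 := abel (fun i => Q * z i ^ (Q - 1)) (fun i => y i - z i)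
    (by
      intro i j hij
      have h1 := hσ hij
      have : z j ^ (Q - 1) ≤ z i ^ (Q - 1) := Real.rpow_le_rpow (hz0 j) h1 (by linarith)
      exact mul_le_mul_of_nonneg_left this (by linarith))
    (fun i => mul_nonneg (by linarith) (Real.rpow_nonneg (hz0 i) _))
    (by
      intro k hk
      obtain ⟨S, hS, hS2⟩ := top_perm (fun i => |x i|) σ k hk
      have h2 := h S
      rw [hS] at h2
      have h3 : top (fun i => y i - z i) k = top y k - top z k := by
        unfold top
        rw [Finset.sum_sub_distrib]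
      rw [h3, hz, hS2]
      linarith)
  have h2 : ∑ j, Q * z j ^ (Q - 1) * (y j - z j) ≤ ∑ j, (y j ^ Q - z j ^ Q) :=
    Finset.sum_le_sum (fun j _ => tangent (z j) (y j) Q (hz0 j) (hy0 j) hQ)
  rw [Finset.sum_sub_distrib] at h2
  have h3 : ∑ j, (fun i => Q * z i ^ (Q - 1)) j * (fun i => y i - z i) j =
      ∑ j, Q * z j ^ (Q - 1) * (y j - z j) := rfl
  rw [h3] at h1
  linarith

/-- bound of a linear form by the sum of the largest entries -/
theorem le_top {n : ℕ} (W p : Fin n → ℝ) (hW : Antitone W) (hW0 : ∀ i, 0 ≤ W i)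
    (hp0 : ∀ a, 0 ≤ p a) (hp1 : ∀ a, p a ≤ 1) (k : ℕ) (hk : ∑ a, p a ≤ k) :
    ∑ a, W a * p a ≤ top W k := by
  have e0 : top W k = ∑ a, W a * (if (a : ℕ) < k then 1 else 0) := by
    unfold top
    rw [Finset.sum_filter]
    refine Finset.sum_congr rfl (fun a _ => ?_)
    split_ifs <;> simp
  by_cases hkn : k < n
  · have h1 : ∀ a, W a * (p a - (if (a : ℕ) < k then 1 else 0)) ≤
        W ⟨k, hkn⟩ * (p a - (if (a : ℕ) < k then 1 else 0)) := by
      intro a
      by_cases ha : (a : ℕ) < k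
      · rw [if_pos ha]
        have h2 : W ⟨k, hkn⟩ ≤ W a := hW (by rw [Fin.le_def]; exact ha.le)
        exact mul_le_mul_of_nonpos_right h2 (by linarith [hp1 a])
      · rw [if_neg ha]
        have h2 : W a ≤ W ⟨k, hkn⟩ := hW (by rw [Fin.le_def]; simp; omega)
        exact mul_le_mul_of_nonneg_right h2 (by linarith [hp0 a])
    have h2 := Finset.sum_le_sum (fun a (_ : a ∈ Finset.univ) => h1 a)
    rw [← Finset.mul_sum, Finset.sum_sub_distrib] at h2
    have h3 : ∑ a : Fin n, (if (a : ℕ) < k then (1 : ℝ) else 0) = k := by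
      rw [← Finset.sum_filter, Finset.sum_const, Fin.card_filter_val_lt]
      simp
      omega
    rw [h3] at h2
    have h4 : ∑ a, W a * (p a - (if (a : ℕ) < k then 1 else 0)) =
        ∑ a, W a * p a - top W k := by
      rw [e0, ← Finset.sum_sub_distrib]
      refine Finset.sum_congr rfl (fun a _ => ?_)
      ring
    rw [h4] at h2
    have h5 : W ⟨k, hkn⟩ * (∑ a, p a - k) ≤ 0 :=
      mul_nonpos_of_nonneg_of_nonpos (hW0 _) (by linarith)
    linarith
  · rw [e0]
    refine Finset.sum_le_sum (fun a _ => ?_)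
    rw [if_pos (by omega)]
    exact mul_le_mul_of_nonneg_left (hp1 a) (hW0 a)

/-- the same with a counting hypothesis -/
theorem le_top_of_count {n : ℕ} (t W p : Fin n → ℝ) (hW : Antitone W) (hW0 : ∀ i, 0 ≤ W i)
    (hp0 : ∀ a, 0 ≤ p a) (hp1 : ∀ a, p a ≤ 1) (k : ℕ) (hk : ∑ a, p a ≤ k)
    (hc : ∀ j : Fin n, (Finset.univ.filter (fun a => W j < t a)).card ≤ (j : ℕ)) :
    ∑ a, t a * p a ≤ top W k := by
  obtain ⟨σ, hσ⟩ := exists_sort t
  have h1 : ∀ j, t (σ j) ≤ W j := by
    intro j
    by_contra hcon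
    have hcon := not_le.1 hcon
    have h2 : (Finset.univ.filter (fun a : Fin n => (a : ℕ) < (j : ℕ) + 1)).map σ.toEmbedding ⊆
        Finset.univ.filter (fun a => W j < t a) := by
      intro a ha
      rw [Finset.mem_map] at ha
      obtain ⟨b, hb, rfl⟩ := ha
      rw [Finset.mem_filter] at hb ⊢
      refine ⟨Finset.mem_univ _, lt_of_lt_of_le hcon ?_⟩
      exact hσ (by rw [Fin.le_def]; omega)
    have h3 := Finset.card_le_card h2
    rw [Finset.card_map, Fin.card_filter_val_lt] at h3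
    have h4 := hc j
    have h5 := j.2
    omega
  calc ∑ a, t a * p a = ∑ a, t (σ a) * p (σ a) := (Equiv.sum_comp σ (fun a => t a * p a)).symm
    _ ≤ ∑ a, W a * p (σ a) := Finset.sum_le_sum (fun a _ =>
        mul_le_mul_of_nonneg_right (h1 a) (hp0 _))
    _ ≤ top W k := le_top W (fun a => p (σ a)) hW hW0 (fun a => hp0 _) (fun a => hp1 _) k (by
        rw [Equiv.sum_comp σ p]
        exact hk)

/-- the counting argument with two signs -/
theorem count_two {n : ℕ} (η : Fin n → ℝ) (hη : Antitone (fun i => |η i|)) (j : Fin n)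
    (J J1 J2 : Finset (Fin n)) (hJ : J ⊆ J1 ∪ J2)
    (h1 : J1.card ≤ (Finset.univ.filter (fun b => |η j| < η b)).card)
    (h2 : J2.card ≤ (Finset.univ.filter (fun b => |η j| < -η b)).card) :
    J.card ≤ (j : ℕ) := by
  have h3 := (Finset.card_le_card hJ).trans (Finset.card_union_le J1 J2)
  have hd : Disjoint (Finset.univ.filter (fun b => |η j| < η b))
      (Finset.univ.filter (fun b => |η j| < -η b)) := by
    rw [Finset.disjoint_left]
    intro b hb hb'
    rw [Finset.mem_filter] at hb hb'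
    have := abs_nonneg (η j)
    linarith [hb.2, hb'.2]
  have h4 : (Finset.univ.filter (fun b => |η j| < η b)) ∪
      (Finset.univ.filter (fun b => |η j| < -η b)) ⊆
      Finset.univ.filter (fun b : Fin n => (b : ℕ) < (j : ℕ)) := by
    intro b hb
    rw [Finset.mem_union, Finset.mem_filter, Finset.mem_filter] at hb
    rw [Finset.mem_filter]
    refine ⟨Finset.mem_univ _, ?_⟩
    by_contra hcon
    have h5 : |η b| ≤ |η j| := hη (by rw [Fin.le_def]; omega)
    rcases hb with hb | hb
    · have := le_abs_self (η b)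
      linarith [hb.2]
    · have := neg_le_abs (η b)
      linarith [hb.2]
  have h5 := Finset.card_le_card h4
  rw [Finset.card_union_of_disjoint hd, Fin.card_filter_val_lt] at h5
  have := j.2
  omega

end Pool.Agent.J4H86.PMH
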