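import Mathlib
import Pool.Agent.N95.PM.Half
import Pool.Agent.J4H86.PMH.Maj

set_option autoImplicit false

open Matrix
open scoped BigOperators ComplexOrder

namespace Pool.Agent.J4H86.PMH

open Pool.Agent.N95.PM

variable {n : ℕ}

/-- quadratic form -/
noncomputable def qf (M : Matrix (Fin n) (Fin n) ℂ) (v : Fin n → ℂ) : ℝ := (star v ⬝ᵥ (M *ᵥ v)).re

/-- squared norm -/
noncomputable def ns (v : Fin n → ℂ) : ℝ := ∑ i, ‖v i‖ ^ 2

/-- real diagonal matrix -/
noncomputable def dm (l : Fin n → ℝ) : Matrix (Fin n) (Fin n) ℂ := diagonal (fun j => ((l j : ℝ) : ℂ))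

theorem ns_nonneg (v : Fin n → ℂ) : 0 ≤ ns v := Finset.sum_nonneg (fun i _ => by positivity)

theorem ns_pos (v : Fin n → ℂ) (hv : v ≠ 0) : 0 < ns v := by
  obtain ⟨i, hi⟩ := Function.ne_iff.1 hv
  have h : 0 < ‖v i‖ ^ 2 := by
    have := norm_pos_iff.2 hi
    positivity
  exact lt_of_lt_of_le h
    (Finset.single_le_sum (f := fun i => ‖v i‖ ^ 2) (fun i _ => by positivity) (Finset.mem_univ i))

theorem qf_dm (l : Fin n → ℝ) (v : Fin n → ℂ) : qf (dm l) v = ∑ j, l j * ‖v j‖ ^ 2 := by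
  unfold qf dm
  rw [dotProduct, Complex.re_sum]
  refine Finset.sum_congr rfl (fun j _ => ?_)
  rw [Matrix.mulVec_diagonal, Pi.star_apply]
  have : star (v j) * (((l j : ℝ) : ℂ) * v j) = ((l j * ‖v j‖ ^ 2 : ℝ) : ℂ) := by
    have h := Complex.conj_mul' (v j)
    rw [show star (v j) = (starRingEnd ℂ) (v j) from rfl]
    push_cast
    rw [← h]
    ring
  rw [this, Complex.ofReal_re]

theorem qf_one (v : Fin n → ℂ) : qf 1 v = ns v := by
  have h := qf_dm (fun _ => 1) v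
  have e : dm (n := n) (fun _ => 1) = 1 := by
    unfold dm
    simp
  rw [e] at h
  rw [h]
  unfold ns
  simp

theorem qf_add (M N : Matrix (Fin n) (Fin n) ℂ) (v : Fin n → ℂ) : qf (M + N) v = qf M v + qf N v := by
  unfold qf
  rw [Matrix.add_mulVec, dotProduct_add, Complex.add_re]

theorem qf_sub (M N : Matrix (Fin n) (Fin n) ℂ) (v : Fin n → ℂ) : qf (M - N) v = qf M v - qf N v := by
  unfold qf
  rw [Matrix.sub_mulVec, dotProduct_sub, Complex.sub_re]

theorem qf_neg (M : Matrix (Fin n) (Fin n) ℂ) (v : Fin n → ℂ) : qf (-M) v = -qf M v := by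
  unfold qf
  rw [Matrix.neg_mulVec, dotProduct_neg, Complex.neg_re]

theorem qf_smul (c : ℝ) (M : Matrix (Fin n) (Fin n) ℂ) (v : Fin n → ℂ) :
    qf (c • M) v = c * qf M v := by
  unfold qf
  rw [Matrix.smul_mulVec, dotProduct_smul, Complex.real_smul, Complex.re_ofReal_mul]

theorem qf_conj (M N : Matrix (Fin n) (Fin n) ℂ) (v : Fin n → ℂ) :
    qf M (N *ᵥ v) = qf (Nᴴ * M * N) v := by
  unfold qf
  rw [Matrix.star_mulVec, ← Matrix.dotProduct_mulVec, Matrix.mulVec_mulVec, Matrix.mulVec_mulVec,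
    Matrix.mul_assoc]

theorem qf_nonneg (M : Matrix (Fin n) (Fin n) ℂ) (hM : M.PosSemidef) (v : Fin n → ℂ) :
    0 ≤ qf M v := (Complex.le_def.1 (hM.dotProduct_mulVec_nonneg v)).1

theorem ns_unitary (W : Matrix (Fin n) (Fin n) ℂ) (hW : Wᴴ * W = 1) (v : Fin n → ℂ) :
    ns (W *ᵥ v) = ns v := by
  rw [← qf_one, qf_conj, Matrix.mul_one, hW, qf_one]

/-- dimension count -/
theorem cnt (H W : Matrix (Fin n) (Fin n) ℂ) (δ : Fin n → ℝ) (hW : Wᴴ * W = 1)
    (hH : H = W * dm δ * Wᴴ) (N : Matrix (Fin n) (Fin n) ℂ) (J : Finset (Fin n)) (c : ℝ)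
    (h : ∀ α : Fin n → ℂ, (∀ i, i ∉ J → α i = 0) → α ≠ 0 → c * ns (N *ᵥ α) < qf H (N *ᵥ α)) :
    J.card ≤ (Finset.univ.filter (fun b => c < δ b)).card := by
  classical
  have hW' : W * Wᴴ = 1 := mul_eq_one_comm.1 hW
  set B : Finset (Fin n) := Finset.univ.filter (fun b => c < δ b) with hB
  -- extension by zero
  let E : (J → ℂ) →ₗ[ℂ] (Fin n → ℂ) :=
    { toFun := fun α i => if hi : i ∈ J then α ⟨i, hi⟩ else 0
      map_add' := by
        intro a b
        funext i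
        by_cases hi : i ∈ J <;> simp [hi]
      map_smul' := by
        intro a b
        funext i
        by_cases hi : i ∈ J <;> simp [hi] }
  let R : (Fin n → ℂ) →ₗ[ℂ] (B → ℂ) := LinearMap.funLeft ℂ ℂ (fun b : B => (b : Fin n))
  let L : (J → ℂ) →ₗ[ℂ] (B → ℂ) := R ∘ₗ (Matrix.mulVecLin (Wᴴ * N)) ∘ₗ E
  have hinj : Function.Injective L := by
    rw [← LinearMap.ker_eq_bot, LinearMap.ker_eq_bot']
    intro a ha
    by_contra hne
    have hE0 : ∀ i, i ∉ J → E a i = 0 := by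
      intro i hi
      show (if hi : i ∈ J then a ⟨i, hi⟩ else 0) = 0
      rw [dif_neg hi]
    have hEne : E a ≠ 0 := by
      intro hz
      apply hne
      funext i
      have := congrFun hz i
      have h2 : E a i = a i := by
        show (if hi : (i : Fin n) ∈ J then a ⟨i, hi⟩ else 0) = a i
        rw [dif_pos i.2]
      rw [h2] at this
      exact this
    have h1 := h (E a) hE0 hEne
    set v := N *ᵥ E a with hv
    set y := Wᴴ *ᵥ v with hy
    have hvy : v = W *ᵥ y := by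
      rw [hy, Matrix.mulVec_mulVec, hW', Matrix.one_mulVec]
    have h2 : qf H v = ∑ b, δ b * ‖y b‖ ^ 2 := by
      rw [hvy, qf_conj, ← qf_dm]
      congr 1
      rw [hH]
      calc Wᴴ * (W * dm δ * Wᴴ) * W = (Wᴴ * W) * dm δ * (Wᴴ * W) := by
            simp only [Matrix.mul_assoc]
        _ = dm δ := by rw [hW, Matrix.one_mul, Matrix.mul_one]
    have h3 : ns v = ∑ b, ‖y b‖ ^ 2 := by
      rw [hvy, ns_unitary W hW]
      rfl
    have h4 : ∀ b ∈ B, y b = 0 := by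
      intro b hb
      have h5 := congrFun ha ⟨b, hb⟩
      have h6 : L a ⟨b, hb⟩ = ((Wᴴ * N) *ᵥ E a) b := rfl
      rw [h6, ← Matrix.mulVec_mulVec] at h5
      exact h5
    rw [h2, h3, Finset.mul_sum] at h1
    refine absurd h1 (not_lt.2 (Finset.sum_le_sum (fun b _ => ?_)))
    by_cases hb : b ∈ B
    · rw [h4 b hb]
      simp
    · have h7 : δ b ≤ c := by
        by_contra hcon
        exact hb (by rw [hB, Finset.mem_filter]; exact ⟨Finset.mem_univ _, not_le.1 hcon⟩)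
      exact mul_le_mul_of_nonneg_right h7 (by positivity)
  have h8 := LinearMap.finrank_le_finrank_of_injective hinj
  rw [Module.finrank_fintype_fun_eq_card, Module.finrank_fintype_fun_eq_card, Fintype.card_coe,
    Fintype.card_coe] at h8
  exact h8

/-- eigenbasis with sorted absolute values of the eigenvalues -/
theorem exists_eigenbasis (H : Matrix (Fin n) (Fin n) ℂ) (hH : H.IsHermitian) :
    ∃ (W : Matrix (Fin n) (Fin n) ℂ) (δ : Fin n → ℝ), Wᴴ * W = 1 ∧ H = W * dm δ * Wᴴ ∧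
      Antitone (fun i => |δ i|) := by
  obtain ⟨σ, hσ⟩ := exists_sort (fun i => |hH.eigenvalues i|)
  set U := (hH.eigenvectorUnitary : Matrix (Fin n) (Fin n) ℂ) with hU
  have hUU := eigU_left H hH
  have hUU' := eigU_right H hH
  rw [← hU] at hUU hUU'
  refine ⟨U.submatrix id σ, fun i => hH.eigenvalues (σ i), ?_, ?_, hσ⟩
  · rw [Matrix.conjTranspose_submatrix]
    ext i j
    have h1 : ((Uᴴ.submatrix σ id) * (U.submatrix id σ)) i j = (Uᴴ * U) (σ i) (σ j) := by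
      rw [Matrix.mul_apply, Matrix.mul_apply]
      rfl
    rw [h1, hUU, Matrix.one_apply, Matrix.one_apply]
    simp
  · conv_lhs => rw [spectral' H hH]
    ext i j
    rw [Matrix.mul_apply, Matrix.mul_apply]
    rw [← Equiv.sum_comp σ]
    refine Finset.sum_congr rfl (fun k _ => ?_)
    unfold dm
    rw [Matrix.mul_diagonal, Matrix.mul_diagonal, Matrix.conjTranspose_apply,
      Matrix.conjTranspose_apply, Matrix.submatrix_apply, Matrix.submatrix_apply]
    rfl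

/-- simultaneous diagonalisation by congruence -/
theorem exists_congr (P Q : Matrix (Fin n) (Fin n) ℂ) (hP : P.PosDef) (hQ : Q.PosDef) :
    ∃ (N : Matrix (Fin n) (Fin n) ℂ) (z : Fin n → ℝ), Nᴴ * Q * N = 1 ∧ Nᴴ * P * N = dm z ∧
      ∀ a, 0 < z a := by
  set S := mpow Q (-(1 / 2)) with hS
  have hSh : Sᴴ = S := mpow_isHermitian Q _
  have hSQS : S * Q * S = 1 := by
    have h1 : S * Q = mpow Q (1 / 2) := by
      conv_lhs => rw [← mpow_one Q hQ]
      rw [hS, mpow_one Q hQ]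
      conv_lhs => rw [← mpow_one Q hQ]
      rw [mpow_mpow Q hQ, ← mpow_add Q hQ]
      congr 1
      ring
    rw [h1, hS, ← mpow_add Q hQ]
    have : (1 / 2 : ℝ) + -(1 / 2) = 0 := by ring
    rw [this]
    unfold mpow
    have e : (fun x : ℝ => x ^ (0 : ℝ)) = fun _ => 1 := by
      funext x
      exact Real.rpow_zero x
    rw [e]
    exact cfc_const_one ℝ Q hQ.1.isSelfAdjoint
  have hZ : (S * P * S).IsHermitian := by
    rw [Matrix.IsHermitian, Matrix.conjTranspose_mul, Matrix.conjTranspose_mul, hSh, hP.1.eq,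
      Matrix.mul_assoc]
  have hU := eigU_left _ hZ
  have hsp := spectral' _ hZ
  set U := (hZ.eigenvectorUnitary : Matrix (Fin n) (Fin n) ℂ) with hUdef
  have hQN : (S * U)ᴴ * Q * (S * U) = 1 := by
    rw [Matrix.conjTranspose_mul, hSh]
    calc Uᴴ * S * Q * (S * U) = Uᴴ * (S * Q * S) * U := by simp only [Matrix.mul_assoc]
      _ = 1 := by rw [hSQS, Matrix.mul_one, hU]
  have hPN : (S * U)ᴴ * P * (S * U) = dm hZ.eigenvalues := by
    rw [Matrix.conjTranspose_mul, hSh]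
    calc Uᴴ * S * P * (S * U) = Uᴴ * (S * P * S) * U := by simp only [Matrix.mul_assoc]
      _ = Uᴴ * (U * dm hZ.eigenvalues * Uᴴ) * U := by
          congr 2
      _ = (Uᴴ * U) * dm hZ.eigenvalues * (Uᴴ * U) := by simp only [Matrix.mul_assoc]
      _ = dm hZ.eigenvalues := by rw [hU, Matrix.one_mul, Matrix.mul_one]
  refine ⟨S * U, hZ.eigenvalues, hQN, hPN, ?_⟩
  have hinj : Function.Injective (S * U).mulVec := by
    intro v w hvw
    have h1 : ∀ u : Fin n → ℂ, ((S * U)ᴴ * Q) *ᵥ ((S * U) *ᵥ u) = u := by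
      intro u
      rw [Matrix.mulVec_mulVec, hQN, Matrix.one_mulVec]
    have hvw' : (S * U) *ᵥ v = (S * U) *ᵥ w := hvw
    rw [← h1 v, hvw', h1 w]
  have hpd := hP.conjTranspose_mul_mul_same (B := S * U) hinj
  rw [hPN] at hpd
  intro a
  have := hpd.diag_pos (i := a)
  unfold dm at this
  rw [Matrix.diagonal_apply_eq] at this
  exact (Complex.lt_def.1 this).1

/-- inverse through the congruence -/
theorem congr_inv (P Pi N : Matrix (Fin n) (Fin n) ℂ) (z : Fin n → ℝ) (hz : ∀ a, z a ≠ 0)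
    (h : Nᴴ * P * N = dm z) (hPi : Pi * P = 1) : Pi = N * dm (fun a => (z a)⁻¹) * Nᴴ := by
  have h1 : dm (fun a => (z a)⁻¹) * dm z = 1 := by
    unfold dm
    rw [Matrix.diagonal_mul_diagonal, ← Matrix.diagonal_one]
    congr 1
    funext a
    have := hz a
    push_cast
    rw [inv_mul_cancel₀]
    exact_mod_cast this
  have h2 : (dm (fun a => (z a)⁻¹) * Nᴴ * P) * N = 1 := by
    rw [← h1, ← h]
    simp only [Matrix.mul_assoc]
  have h3 : N * (dm (fun a => (z a)⁻¹) * Nᴴ * P) = 1 := mul_eq_one_comm.1 h2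
  have h4 : (N * dm (fun a => (z a)⁻¹) * Nᴴ) * P = 1 := by
    rw [← h3]
    simp only [Matrix.mul_assoc]
  have h5 : P * Pi = 1 := mul_eq_one_comm.1 hPi
  calc Pi = 1 * Pi := (Matrix.one_mul _).symm
    _ = (N * dm (fun a => (z a)⁻¹) * Nᴴ) * P * Pi := by rw [h4]
    _ = _ := by rw [Matrix.mul_assoc, h5, Matrix.mul_one]

theorem dg_form (V N : Matrix (Fin n) (Fin n) ℂ) (g : Fin n → ℝ) (i : Fin n) :
    dg V (N * dm g * Nᴴ) i = ∑ a, g a * ‖(Nᴴ * V) a i‖ ^ 2 := by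
  rw [← conj_diag_entry]
  unfold dg dm
  congr 2
  rw [Matrix.conjTranspose_mul, Matrix.conjTranspose_conjTranspose]
  simp only [Matrix.mul_assoc]

theorem dg_cfc (V A : Matrix (Fin n) (Fin n) ℂ) (hA : A.IsHermitian) (f : ℝ → ℝ) (i : Fin n) :
    dg V (cfc f A) i = ∑ a, f (hA.eigenvalues a) *
      ‖((hA.eigenvectorUnitary : Matrix (Fin n) (Fin n) ℂ)ᴴ * V) a i‖ ^ 2 := by
  rw [← dg_form]
  congr 1
  rw [hA.cfc_eq]
  unfold Matrix.IsHermitian.cfc
  rw [Unitary.conjStarAlgAut_apply]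
  rfl

/-- row sums -/
theorem row_sum (V N : Matrix (Fin n) (Fin n) ℂ) (hV : V * Vᴴ = 1) (a : Fin n) :
    ∑ i, ‖(Nᴴ * V) a i‖ ^ 2 = ns (fun i => N i a) := by
  have h1 : ∀ M : Matrix (Fin n) (Fin n) ℂ, ((∑ i, ‖M a i‖ ^ 2 : ℝ) : ℂ) = (M * Mᴴ) a a := by
    intro M
    rw [Matrix.mul_apply]
    push_cast
    refine Finset.sum_congr rfl (fun i _ => ?_)
    rw [Matrix.conjTranspose_apply]
    have h := Complex.mul_conj' (M a i)
    rw [show star (M a i) = (starRingEnd ℂ) (M a i) from rfl, h]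
  have h2 : ((∑ i, ‖(Nᴴ * V) a i‖ ^ 2 : ℝ) : ℂ) = ((∑ i, ‖Nᴴ a i‖ ^ 2 : ℝ) : ℂ) := by
    rw [h1, h1]
    have e : Nᴴ * V * (Nᴴ * V)ᴴ = Nᴴ * Nᴴᴴ := by
      rw [Matrix.conjTranspose_mul (Nᴴ) V]
      calc Nᴴ * V * (Vᴴ * Nᴴᴴ) = Nᴴ * (V * Vᴴ) * Nᴴᴴ := by simp only [Matrix.mul_assoc]
        _ = _ := by rw [hV, Matrix.mul_one]
    rw [e]
  have h3 : ∑ i, ‖(Nᴴ * V) a i‖ ^ 2 = ∑ i, ‖Nᴴ a i‖ ^ 2 := by exact_mod_cast h2
  rw [h3]
  unfold ns
  refine Finset.sum_congr rfl (fun i _ => ?_)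
  rw [Matrix.conjTranspose_apply, norm_star]

end Pool.Agent.J4H86.PMH
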