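import Mathlib
import Pool.Agent.J4H86.PMH.Quad

set_option autoImplicit false

open Matrix
open scoped BigOperators ComplexOrder

namespace Pool.Agent.J4H86.PMH

open Pool.Agent.N95.PM

variable {n : ℕ}

theorem eig_nonneg (X : Matrix (Fin n) (Fin n) ℂ) (hX : X.PosSemidef) (x : ℝ)
    (hx : x ∈ spectrum ℝ X) : 0 ≤ x := by
  rw [hX.1.spectrum_real_eq_range_eigenvalues] at hx
  obtain ⟨i, rfl⟩ := hx
  exact hX.eigenvalues_nonneg i

/-- the resolvent through the functional calculus -/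
noncomputable def res (s : ℝ) (X : Matrix (Fin n) (Fin n) ℂ) : Matrix (Fin n) (Fin n) ℂ :=
  cfc (fun x : ℝ => (s + x)⁻¹) X

theorem res_mul (s : ℝ) (hs : 0 < s) (X : Matrix (Fin n) (Fin n) ℂ) (hX : X.PosSemidef) :
    res s X * (X + s • (1 : Matrix (Fin n) (Fin n) ℂ)) = 1 := by
  have h1 : X + s • (1 : Matrix (Fin n) (Fin n) ℂ) = cfc (fun x : ℝ => s + x) X := by
    rw [cfc_add (a := X) (fun _ => s) (fun x : ℝ => x) (cont_spec _ _) (cont_spec _ _),
      cfc_id' ℝ X hX.1.isSelfAdjoint, cfc_const s X hX.1.isSelfAdjoint, add_comm]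
    congr 1
    rw [Algebra.algebraMap_eq_smul_one]
  rw [h1]
  unfold res
  rw [← cfc_mul (fun x : ℝ => (s + x)⁻¹) (fun x : ℝ => s + x) X (cont_spec _ _) (cont_spec _ _)]
  rw [← cfc_const_one ℝ X hX.1.isSelfAdjoint]
  apply cfc_congr
  intro x hx
  have := eig_nonneg X hX x hx
  exact inv_mul_cancel₀ (by linarith)

/-- the scalar kernel `x² / (s (s + x))` -/
noncomputable def kf (s x : ℝ) : ℝ := x * (s⁻¹ - (s + x)⁻¹)

/-- the scalar kernel `x / (s (s + x))` -/
noncomputable def kg (s x : ℝ) : ℝ := s⁻¹ - (s + x)⁻¹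

theorem cfc_kf (s : ℝ) (hs : 0 < s) (X : Matrix (Fin n) (Fin n) ℂ) (hX : X.PosSemidef) :
    cfc (kf s) X = s⁻¹ • X - 1 + s • res s X := by
  have h1 : cfc (kf s) X = cfc (fun x : ℝ => (s⁻¹ * x - 1) + s * (s + x)⁻¹) X := by
    apply cfc_congr
    intro x hx
    have := eig_nonneg X hX x hx
    have h2 : s + x ≠ 0 := by linarith
    unfold kf
    show x * (s⁻¹ - (s + x)⁻¹) = (s⁻¹ * x - 1) + s * (s + x)⁻¹
    field_simp
    ring
  rw [h1, cfc_add (a := X) (fun x : ℝ => s⁻¹ * x - 1) (fun x : ℝ => s * (s + x)⁻¹)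
    (cont_spec _ _) (cont_spec _ _), cfc_sub (a := X) (fun x : ℝ => s⁻¹ * x) (fun _ => (1 : ℝ))
    (cont_spec _ _) (cont_spec _ _), cfc_const_mul s⁻¹ (fun x : ℝ => x) X (cont_spec _ _),
    cfc_id' ℝ X hX.1.isSelfAdjoint, cfc_const_one ℝ X hX.1.isSelfAdjoint,
    cfc_const_mul s (fun x : ℝ => (s + x)⁻¹) X (cont_spec _ _)]
  rfl

theorem cfc_kg (s : ℝ) (X : Matrix (Fin n) (Fin n) ℂ) (hX : X.PosSemidef) :
    cfc (kg s) X = s⁻¹ • 1 - res s X := by
  have h1 : cfc (kg s) X = cfc (fun x : ℝ => s⁻¹ - (s + x)⁻¹) X := rfl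
  rw [h1, cfc_sub (a := X) (fun _ => s⁻¹) (fun x : ℝ => (s + x)⁻¹)
    (cont_spec _ _) (cont_spec _ _), cfc_const s⁻¹ X hX.1.isSelfAdjoint,
    Algebra.algebraMap_eq_smul_one]
  rfl

theorem dg_res_le (s : ℝ) (hs : 0 < s) (X V : Matrix (Fin n) (Fin n) ℂ) (hX : X.PosSemidef)
    (hV : Vᴴ * V = 1) (i : Fin n) : dg V (res s X) i ≤ s⁻¹ := by
  unfold res
  rw [dg_cfc V X hX.1]
  set U := (hX.1.eigenvectorUnitary : Matrix (Fin n) (Fin n) ℂ) with hU
  have hU2 : U * Uᴴ = 1 := eigU_right X hX.1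
  have hG : (Uᴴ * V)ᴴ * (Uᴴ * V) = 1 := by
    rw [Matrix.conjTranspose_mul, Matrix.conjTranspose_conjTranspose]
    calc Vᴴ * U * (Uᴴ * V) = Vᴴ * (U * Uᴴ) * V := by simp only [Matrix.mul_assoc]
      _ = 1 := by rw [hU2, Matrix.mul_one, hV]
  calc ∑ a, (s + hX.1.eigenvalues a)⁻¹ * ‖(Uᴴ * V) a i‖ ^ 2
      ≤ ∑ a, s⁻¹ * ‖(Uᴴ * V) a i‖ ^ 2 := by
        refine Finset.sum_le_sum (fun a _ => ?_)
        have h0 := hX.eigenvalues_nonneg a
        refine mul_le_mul_of_nonneg_right ?_ (by positivity)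
        exact inv_anti₀ hs (by linarith)
    _ = s⁻¹ := by rw [← Finset.mul_sum, unitary_col _ hG, mul_one]

theorem qf_shift (s : ℝ) (X : Matrix (Fin n) (Fin n) ℂ) (v : Fin n → ℂ) :
    qf (X + s • (1 : Matrix (Fin n) (Fin n) ℂ)) v = qf X v + s * ns v := by
  rw [qf_add, qf_smul, qf_one]

theorem shift_posDef (s : ℝ) (hs : 0 < s) (X : Matrix (Fin n) (Fin n) ℂ) (hX : X.PosSemidef) :
    (X + s • (1 : Matrix (Fin n) (Fin n) ℂ)).PosDef := by
  have h1 : (s • (1 : Matrix (Fin n) (Fin n) ℂ)).PosDef := Matrix.PosDef.one.smul hs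
  exact Matrix.PosDef.posSemidef_add hX h1

theorem z_bound (m z : ℝ) (hm : 1 ≤ m) (hz : 0 < z) (h1 : z ≤ m) (h2 : m⁻¹ ≤ z) :
    (z - 1) ^ 2 / z ≤ (m - 1) ^ 2 / m := by
  have hm0 : 0 < m := by linarith
  rw [div_le_div_iff₀ hz hm0]
  have h3 : 1 ≤ m * z := by
    have := mul_le_mul_of_nonneg_left h2 hm0.le
    rwa [mul_inv_cancel₀ hm0.ne'] at this
  nlinarith [mul_nonneg (sub_nonneg.2 h1) (sub_nonneg.2 h3)]

/-- Ky Fan type bound of the Jensen gap of the kernel `kf s` -/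
theorem stepB (A B V W : Matrix (Fin n) (Fin n) ℂ) (δ : Fin n → ℝ) (hA : A.PosSemidef)
    (hB : B.PosSemidef) (hV : Vᴴ * V = 1) (hW : Wᴴ * W = 1) (hH : B - A = W * dm δ * Wᴴ)
    (hδ : Antitone (fun i => |δ i|)) (s τ : ℝ) (hs : 0 < s) (h0 : 0 ≤ τ) (h1 : τ ≤ 1)
    (T : Finset (Fin n)) :
    ∑ i ∈ T, |dg V (τ • cfc (kf s) B + (1 - τ) • cfc (kf s) A -
      cfc (kf s) (τ • B + (1 - τ) • A)) i| ≤ (1 - τ) * top (fun j => kf s |δ j|) T.card := by
  have hV' : V * Vᴴ = 1 := mul_eq_one_comm.1 hV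
  have hR : (τ • B + (1 - τ) • A).PosSemidef :=
    (hB.smul h0).add (hA.smul (by linarith : 0 ≤ 1 - τ))
  obtain ⟨N, z, hQN, hPN, hz⟩ := exists_congr _ _ (shift_posDef s hs B hB) (shift_posDef s hs A hA)
  have hRN : Nᴴ * ((τ • B + (1 - τ) • A) + s • (1 : Matrix (Fin n) (Fin n) ℂ)) * N =
      dm (fun a => τ * z a + (1 - τ)) := by
    have e : (τ • B + (1 - τ) • A) + s • (1 : Matrix (Fin n) (Fin n) ℂ) =
        τ • (B + s • (1 : Matrix (Fin n) (Fin n) ℂ)) +
          (1 - τ) • (A + s • (1 : Matrix (Fin n) (Fin n) ℂ)) := by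
      module
    rw [e, Matrix.mul_add, Matrix.add_mul, Matrix.mul_smul, Matrix.smul_mul, Matrix.mul_smul,
      Matrix.smul_mul, hQN, hPN]
    unfold dm
    ext i j
    by_cases hij : i = j
    · subst hij
      simp
    · simp [hij]
  have hpos : ∀ a, 0 < τ * z a + (1 - τ) := by
    intro a
    rcases h0.eq_or_lt with h | h
    · rw [← h]
      norm_num
    · have := mul_pos h (hz a)
      linarith
  have hPi := congr_inv _ _ N z (fun a => (hz a).ne') hPN (res_mul s hs B hB)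
  have hQi := congr_inv _ _ N (fun _ => 1) (fun a => one_ne_zero)
    (by rw [hQN]; unfold dm; simp) (res_mul s hs A hA)
  have hRi := congr_inv _ _ N _ (fun a => (hpos a).ne') hRN (res_mul s hs _ hR)
  set g : Fin n → ℝ := fun a => s * (τ * (z a)⁻¹ + (1 - τ) - (τ * z a + (1 - τ))⁻¹) with hg
  have hgdg : ∀ i, dg V (τ • cfc (kf s) B + (1 - τ) • cfc (kf s) A -
      cfc (kf s) (τ • B + (1 - τ) • A)) i = ∑ a, g a * ‖(Nᴴ * V) a i‖ ^ 2 := by
    intro i
    have e : τ • cfc (kf s) B + (1 - τ) • cfc (kf s) A - cfc (kf s) (τ • B + (1 - τ) • A) =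
        s • (τ • res s B + (1 - τ) • res s A - res s (τ • B + (1 - τ) • A)) := by
      rw [cfc_kf s hs B hB, cfc_kf s hs A hA, cfc_kf s hs _ hR]
      module
    rw [e, dg_smul, dg_sub, dg_add, dg_smul, dg_smul]
    simp only [Pi.smul_apply, Pi.sub_apply, Pi.add_apply, smul_eq_mul]
    rw [hPi, hQi, hRi, dg_form, dg_form, dg_form, Finset.mul_sum, Finset.mul_sum,
      ← Finset.sum_add_distrib, ← Finset.sum_sub_distrib, Finset.mul_sum]
    refine Finset.sum_congr rfl (fun a _ => ?_)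
    rw [hg]
    simp only [inv_one, one_mul]
    ring
  have hgz : ∀ a, g a = s * ((z a)⁻¹ * (τ * (1 - τ) * (z a - 1) ^ 2 / (τ * z a + (1 - τ)))) := by
    intro a
    have h2 := (hz a).ne'
    have h3 := (hpos a).ne'
    show s * (τ * (z a)⁻¹ + (1 - τ) - (τ * z a + (1 - τ))⁻¹) = _
    field_simp
    ring
  have hg0 : ∀ a, 0 ≤ g a := by
    intro a
    rw [hgz a]
    have h2 := hz a
    have h3 := hpos a
    have h4 : 0 ≤ 1 - τ := by linarith
    positivity
  have hgle : ∀ a, g a ≤ (1 - τ) * ((z a - 1) ^ 2 / z a) * (s * (z a)⁻¹) := by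
    intro a
    rw [hgz a]
    have h2 := hz a
    have h3 := hpos a
    have h4 : 0 ≤ 1 - τ := by linarith
    have h5 : τ * (1 - τ) * (z a - 1) ^ 2 / (τ * z a + (1 - τ)) ≤
        (1 - τ) * ((z a - 1) ^ 2 / z a) := by
      rw [← mul_div_assoc, div_le_div_iff₀ h3 h2]
      have h6 : 0 ≤ (1 - τ) * (z a - 1) ^ 2 * (1 - τ) := by positivity
      nlinarith
    have h6 : 0 ≤ s * (z a)⁻¹ := by positivity
    calc s * ((z a)⁻¹ * (τ * (1 - τ) * (z a - 1) ^ 2 / (τ * z a + (1 - τ))))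
        = (s * (z a)⁻¹) * (τ * (1 - τ) * (z a - 1) ^ 2 / (τ * z a + (1 - τ))) := by ring
      _ ≤ (s * (z a)⁻¹) * ((1 - τ) * ((z a - 1) ^ 2 / z a)) := mul_le_mul_of_nonneg_left h5 h6
      _ = _ := by ring
  -- the weights
  set p : Fin n → ℝ := fun a => s * (z a)⁻¹ * ∑ i ∈ T, ‖(Nᴴ * V) a i‖ ^ 2 with hp
  have hp0 : ∀ a, 0 ≤ p a := by
    intro a
    have := hz a
    have h3 : 0 ≤ ∑ i ∈ T, ‖(Nᴴ * V) a i‖ ^ 2 := Finset.sum_nonneg (fun i _ => by positivity)
    show 0 ≤ s * (z a)⁻¹ * ∑ i ∈ T, ‖(Nᴴ * V) a i‖ ^ 2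
    positivity
  have hp1 : ∀ a, p a ≤ 1 := by
    intro a
    have h2 : ∑ i ∈ T, ‖(Nᴴ * V) a i‖ ^ 2 ≤ ∑ i, ‖(Nᴴ * V) a i‖ ^ 2 :=
      Finset.sum_le_sum_of_subset_of_nonneg (Finset.subset_univ _) (fun i _ _ => by positivity)
    rw [row_sum V N hV' a] at h2
    have h3 : s * ns (fun i => N i a) ≤ z a := by
      have h4 : qf (B + s • (1 : Matrix (Fin n) (Fin n) ℂ)) (N *ᵥ (Pi.single a 1)) = z a := by
        rw [qf_conj, hPN, qf_dm]
        rw [Finset.sum_eq_single a]
        · simp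
        · intro b _ hb
          simp [hb]
        · intro h
          exact absurd (Finset.mem_univ a) h
      have h5 : N *ᵥ (Pi.single a 1) = fun i => N i a := by
        rw [Matrix.mulVec_single_one]
        rfl
      rw [h5, qf_shift] at h4
      have h6 := qf_nonneg B hB (fun i => N i a)
      linarith
    have h4 := hz a
    show s * (z a)⁻¹ * ∑ i ∈ T, ‖(Nᴴ * V) a i‖ ^ 2 ≤ 1
    calc s * (z a)⁻¹ * ∑ i ∈ T, ‖(Nᴴ * V) a i‖ ^ 2 ≤ s * (z a)⁻¹ * ns (fun i => N i a) :=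
          mul_le_mul_of_nonneg_left h2 (by positivity)
      _ = (z a)⁻¹ * (s * ns (fun i => N i a)) := by ring
      _ ≤ (z a)⁻¹ * z a := mul_le_mul_of_nonneg_left h3 (by positivity)
      _ = 1 := inv_mul_cancel₀ h4.ne'
  have hpk : ∑ a, p a ≤ (T.card : ℝ) := by
    have e : ∑ a, p a = ∑ i ∈ T, s * dg V (res s B) i := by
      rw [hPi]
      simp only [dg_form]
      rw [hp]
      simp only [Finset.mul_sum]
      rw [Finset.sum_comm]
      refine Finset.sum_congr rfl (fun i _ => Finset.sum_congr rfl (fun a _ => ?_))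
      ring
    rw [e]
    calc ∑ i ∈ T, s * dg V (res s B) i ≤ ∑ i ∈ T, (1 : ℝ) := by
          refine Finset.sum_le_sum (fun i _ => ?_)
          have := mul_le_mul_of_nonneg_left (dg_res_le s hs B V hB hV i) hs.le
          rwa [mul_inv_cancel₀ hs.ne'] at this
      _ = T.card := by simp
  -- counting
  have hkf : ∀ x : ℝ, 0 ≤ x → kf s x = (s⁻¹ * x) ^ 2 / (1 + s⁻¹ * x) := by
    intro x hx
    unfold kf
    have h2 : s + x ≠ 0 := by linarith
    have h3 : (1 : ℝ) + s⁻¹ * x ≠ 0 := by positivity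
    field_simp
    ring
  have hcount : ∀ j : Fin n, (Finset.univ.filter
      (fun a => kf s |δ j| < (z a - 1) ^ 2 / z a)).card ≤ (j : ℕ) := by
    intro j
    set d := s⁻¹ * |δ j| with hd
    have hd0 : 0 ≤ d := by positivity
    refine count_two δ hδ j _ (Finset.univ.filter (fun a => 1 + d < z a))
      (Finset.univ.filter (fun a => z a < (1 + d)⁻¹)) ?_ ?_ ?_
    · intro a ha
      rw [Finset.mem_filter] at ha
      rw [Finset.mem_union, Finset.mem_filter, Finset.mem_filter]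
      by_contra hcon
      have hc1 : z a ≤ 1 + d := by
        by_contra h; exact hcon (Or.inl ⟨Finset.mem_univ _, not_le.1 h⟩)
      have hc2 : (1 + d)⁻¹ ≤ z a := by
        by_contra h; exact hcon (Or.inr ⟨Finset.mem_univ _, not_le.1 h⟩)
      have h3 := z_bound (1 + d) (z a) (by linarith) (hz a) hc1 hc2
      have h4 := ha.2
      rw [hkf _ (abs_nonneg _), ← hd] at h4
      have e : (1 + d - 1) ^ 2 / (1 + d) = d ^ 2 / (1 + d) := by ring
      rw [e] at h3
      linarith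
    · apply cnt (B - A) W δ hW hH N
      intro α hα hne
      have e1 : qf (B - A) (N *ᵥ α) = ∑ a, (z a - 1) * ‖α a‖ ^ 2 := by
        have e2 : B - A = (B + s • (1 : Matrix (Fin n) (Fin n) ℂ)) -
            (A + s • (1 : Matrix (Fin n) (Fin n) ℂ)) := by abel
        rw [e2, qf_sub, qf_conj, qf_conj, hPN, hQN, qf_dm, qf_one]
        unfold ns
        rw [← Finset.sum_sub_distrib]
        refine Finset.sum_congr rfl (fun a _ => ?_)
        ring
      have e3 : s * ns (N *ᵥ α) ≤ ns α := by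
        have h3 : qf (A + s • (1 : Matrix (Fin n) (Fin n) ℂ)) (N *ᵥ α) = ns α := by
          rw [qf_conj, hQN, qf_one]
        rw [qf_shift] at h3
        have := qf_nonneg A hA (N *ᵥ α)
        linarith
      have e4 : |δ j| * ns (N *ᵥ α) ≤ d * ns α := by
        calc |δ j| * ns (N *ᵥ α) = d * (s * ns (N *ᵥ α)) := by
              rw [hd]
              field_simp
          _ ≤ d * ns α := mul_le_mul_of_nonneg_left e3 hd0
      refine lt_of_le_of_lt e4 ?_
      rw [e1]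
      unfold ns
      rw [Finset.mul_sum]
      obtain ⟨b, hb⟩ := Function.ne_iff.1 hne
      have hbJ : b ∈ Finset.univ.filter (fun a => 1 + d < z a) := by
        by_contra h
        exact hb (hα b h)
      apply Finset.sum_lt_sum
      · intro a _
        by_cases ha : a ∈ Finset.univ.filter (fun a => 1 + d < z a)
        · rw [Finset.mem_filter] at ha
          exact mul_le_mul_of_nonneg_right (by linarith [ha.2]) (by positivity)
        · rw [hα a ha]
          simp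
      · refine ⟨b, Finset.mem_univ _, ?_⟩
        rw [Finset.mem_filter] at hbJ
        have hb' : 0 < ‖α b‖ ^ 2 := by
          have := norm_pos_iff.2 hb
          positivity
        exact mul_lt_mul_of_pos_right (by linarith [hbJ.2]) hb'
    · have hH' : A - B = W * dm (fun i => -δ i) * Wᴴ := by
        have e2 : A - B = -(B - A) := by abel
        have e3 : dm (fun i => -δ i) = -dm δ := by
          unfold dm
          rw [Matrix.diagonal_neg]
          congr 1
          funext i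
          push_cast
          rfl
        rw [e2, hH, e3, Matrix.mul_neg, Matrix.neg_mul]
      apply cnt (A - B) W (fun i => -δ i) hW hH' N
      intro α hα hne
      have e1 : qf (A - B) (N *ᵥ α) = ∑ a, (1 - z a) * ‖α a‖ ^ 2 := by
        have e2 : A - B = (A + s • (1 : Matrix (Fin n) (Fin n) ℂ)) -
            (B + s • (1 : Matrix (Fin n) (Fin n) ℂ)) := by abel
        rw [e2, qf_sub, qf_conj, qf_conj, hPN, hQN, qf_dm, qf_one]
        unfold ns
        rw [← Finset.sum_sub_distrib]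
        refine Finset.sum_congr rfl (fun a _ => ?_)
        ring
      have e3 : s * ns (N *ᵥ α) ≤ ∑ a, z a * ‖α a‖ ^ 2 := by
        have h3 : qf (B + s • (1 : Matrix (Fin n) (Fin n) ℂ)) (N *ᵥ α) =
            ∑ a, z a * ‖α a‖ ^ 2 := by
          rw [qf_conj, hPN, qf_dm]
        rw [qf_shift] at h3
        have := qf_nonneg B hB (N *ᵥ α)
        linarith
      have e4 : |δ j| * ns (N *ᵥ α) ≤ d * ∑ a, z a * ‖α a‖ ^ 2 := by
        calc |δ j| * ns (N *ᵥ α) = d * (s * ns (N *ᵥ α)) := by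
              rw [hd]
              field_simp
          _ ≤ _ := mul_le_mul_of_nonneg_left e3 hd0
      refine lt_of_le_of_lt e4 ?_
      rw [e1, Finset.mul_sum]
      have hm0 : (0 : ℝ) < 1 + d := by linarith
      have key : ∀ a, z a < (1 + d)⁻¹ → d * z a < 1 - z a := by
        intro a ha
        have := mul_lt_mul_of_pos_left ha hm0
        rw [mul_inv_cancel₀ hm0.ne'] at this
        linarith
      obtain ⟨b, hb⟩ := Function.ne_iff.1 hne
      have hbJ : b ∈ Finset.univ.filter (fun a => z a < (1 + d)⁻¹) := by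
        by_contra h
        exact hb (hα b h)
      apply Finset.sum_lt_sum
      · intro a _
        by_cases ha : a ∈ Finset.univ.filter (fun a => z a < (1 + d)⁻¹)
        · rw [Finset.mem_filter] at ha
          rw [← mul_assoc]
          exact mul_le_mul_of_nonneg_right (key a ha.2).le (by positivity)
        · rw [hα a ha]
          simp
      · refine ⟨b, Finset.mem_univ _, ?_⟩
        rw [Finset.mem_filter] at hbJ
        have hb' : 0 < ‖α b‖ ^ 2 := by
          have := norm_pos_iff.2 hb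
          positivity
        rw [← mul_assoc]
        exact mul_lt_mul_of_pos_right (key b hbJ.2) hb'
  have hanti : Antitone (fun j => kf s |δ j|) := by
    intro i j hij
    have h2 := hδ hij
    simp only at h2
    show |δ j| * (s⁻¹ - (s + |δ j|)⁻¹) ≤ |δ i| * (s⁻¹ - (s + |δ i|)⁻¹)
    have h3 := abs_nonneg (δ j)
    have h4 : (s + |δ i|)⁻¹ ≤ (s + |δ j|)⁻¹ := inv_anti₀ (by linarith) (by linarith)
    have h5 : (s + |δ j|)⁻¹ ≤ s⁻¹ := inv_anti₀ hs (by linarith)
    exact mul_le_mul h2 (by linarith) (by linarith) (by linarith)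
  have hkf0 : ∀ j, 0 ≤ kf s |δ j| := by
    intro j
    rw [hkf _ (abs_nonneg _)]
    positivity
  have hfin := le_top_of_count (fun a => (z a - 1) ^ 2 / z a) (fun j => kf s |δ j|) p hanti hkf0
    hp0 hp1 T.card hpk hcount
  calc ∑ i ∈ T, |dg V (τ • cfc (kf s) B + (1 - τ) • cfc (kf s) A -
      cfc (kf s) (τ • B + (1 - τ) • A)) i|
      = ∑ i ∈ T, ∑ a, g a * ‖(Nᴴ * V) a i‖ ^ 2 := by
        refine Finset.sum_congr rfl (fun i _ => ?_)
        rw [hgdg i, abs_of_nonneg]
        exact Finset.sum_nonneg (fun a _ => mul_nonneg (hg0 a) (by positivity))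
    _ ≤ ∑ i ∈ T, ∑ a, ((1 - τ) * ((z a - 1) ^ 2 / z a) * (s * (z a)⁻¹)) *
          ‖(Nᴴ * V) a i‖ ^ 2 := by
        refine Finset.sum_le_sum (fun i _ => Finset.sum_le_sum (fun a _ => ?_))
        exact mul_le_mul_of_nonneg_right (hgle a) (by positivity)
    _ = (1 - τ) * ∑ a, (z a - 1) ^ 2 / z a * p a := by
        rw [Finset.sum_comm, Finset.mul_sum]
        refine Finset.sum_congr rfl (fun a _ => ?_)
        rw [← Finset.mul_sum, hp]
        ring
    _ ≤ (1 - τ) * top (fun j => kf s |δ j|) T.card :=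
        mul_le_mul_of_nonneg_left hfin (by linarith)

end Pool.Agent.J4H86.PMH
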