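import Mathlib
import Pool.Agent.J4H86.PMH.StepB

set_option autoImplicit false

open Matrix
open scoped BigOperators ComplexOrder

namespace Pool.Agent.J4H86.PMH

open Pool.Agent.N95.PM

variable {n : ℕ}

/-- real part of the inner product -/
noncomputable def ip (v w : Fin n → ℂ) : ℝ := (star v ⬝ᵥ w).re

theorem ip_self (v : Fin n → ℂ) : ip v v = ns v := by
  have := qf_one v
  unfold qf at this
  rw [Matrix.one_mulVec] at this
  exact this

theorem ip_comm (v w : Fin n → ℂ) : ip v w = ip w v := by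
  unfold ip
  rw [← Complex.conj_re (star v ⬝ᵥ w)]
  congr 1
  rw [show (starRingEnd ℂ) (star v ⬝ᵥ w) = star (star v ⬝ᵥ w) from rfl,
    Matrix.star_dotProduct v w, star_star]

theorem qf_eq_ip (M : Matrix (Fin n) (Fin n) ℂ) (v : Fin n → ℂ) : qf M v = ip v (M *ᵥ v) := rfl

theorem ip_add_left (u v w : Fin n → ℂ) : ip (u + v) w = ip u w + ip v w := by
  unfold ip
  rw [star_add, add_dotProduct, Complex.add_re]

theorem ip_smul_left (c : ℝ) (v w : Fin n → ℂ) : ip (c • v) w = c * ip v w := by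
  unfold ip
  rw [star_smul, smul_dotProduct]
  simp

theorem ip_add_right (u v w : Fin n → ℂ) : ip u (v + w) = ip u v + ip u w := by
  rw [ip_comm, ip_add_left, ip_comm v, ip_comm w]

theorem ip_smul_right (c : ℝ) (v w : Fin n → ℂ) : ip v (c • w) = c * ip v w := by
  rw [ip_comm, ip_smul_left, ip_comm]

theorem hE_form (E : Matrix (Fin n) (Fin n) ℂ) (hE : Eᴴ * E = 1) (t : Fin n → ℝ)
    (α : Fin n → ℂ) : ∑ a, t a * ‖α a‖ ^ 2 = qf (E * dm t * Eᴴ) (E *ᵥ α) := by
  rw [qf_conj, ← qf_dm]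
  congr 1
  calc dm t = (Eᴴ * E) * dm t * (Eᴴ * E) := by rw [hE, Matrix.one_mul, Matrix.mul_one]
    _ = _ := by simp only [Matrix.mul_assoc]

theorem ip_herm (P : Matrix (Fin n) (Fin n) ℂ) (hP : Pᴴ = P) (v w : Fin n → ℂ) :
    ip v (P *ᵥ w) = ip (P *ᵥ v) w := by
  unfold ip
  rw [Matrix.star_mulVec, hP, Matrix.dotProduct_mulVec]

/-- the numerical inequality behind the counting step -/
theorem num_ineq (p q m nv pv s d c : ℝ) (hp : 0 < p) (hq : 0 < q) (hm : 0 < m) (hs : 0 < s)
    (hd : 0 ≤ d) (hc : c = d / (s * (s + d))) (hqm : s * m ≤ q)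
    (h1 : q ^ 2 / m ≤ nv) (h2 : q ^ 2 / p ≤ pv) (h : c * nv < q - pv) : d * m < p - q := by
  have hc0 : 0 ≤ c := by
    rw [hc]
    positivity
  have h3 : c * (q ^ 2 / m) ≤ c * nv := mul_le_mul_of_nonneg_left h1 hc0
  have h4 : c * (q ^ 2 / m) + q ^ 2 / p < q := by linarith
  have h5 : c * q / m + q / p < 1 := by
    have : c * (q ^ 2 / m) + q ^ 2 / p = q * (c * q / m + q / p) := by
      field_simp
    rw [this] at h4
    by_contra hcon
    have hcon := not_lt.1 hcon
    have := mul_le_mul_of_nonneg_left hcon hq.le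
    linarith
  by_contra hcon
  have hcon := not_lt.1 hcon
  -- p ≤ q + d m
  have h6 : q / (q + d * m) ≤ q / p := by
    apply div_le_div_of_nonneg_left hq.le hp
    linarith
  have hqd : 0 < q + d * m := by positivity
  have h7 : d * m / (q + d * m) ≤ c * q / m := by
    rw [hc, div_le_div_iff₀ hqd hm]
    have e : d / (s * (s + d)) * q * (q + d * m) = d * (q * (q + d * m)) / (s * (s + d)) := by
      field_simp
    rw [e, le_div_iff₀ (by positivity)]
    have h8 : (s * m) * (s * m + d * m) ≤ q * (q + d * m) := by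
      apply mul_le_mul hqm (by linarith) (by positivity) hq.le
    nlinarith [mul_le_mul_of_nonneg_left h8 hd]
  have h9 : d * m / (q + d * m) + q / (q + d * m) = 1 := by
    rw [← add_div]
    rw [div_eq_one_iff_eq hqd.ne']
    ring
  linarith

/-- counting step for a difference of resolvents -/
theorem countA (X Y W E : Matrix (Fin n) (Fin n) ℂ) (η t : Fin n → ℝ) (hX : X.PosSemidef)
    (hY : Y.PosSemidef) (hW : Wᴴ * W = 1) (hH : X - Y = W * dm η * Wᴴ) (s d : ℝ) (hs : 0 < s)
    (hd : 0 ≤ d) (hE : Eᴴ * E = 1) (hT : res s Y - res s X = E * dm t * Eᴴ) :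
    (Finset.univ.filter (fun a => d / (s * (s + d)) < t a)).card ≤
      (Finset.univ.filter (fun b => d < η b)).card := by
  have hYm := res_mul s hs Y hY
  have hYm' : (Y + s • (1 : Matrix (Fin n) (Fin n) ℂ)) * res s Y = 1 := mul_eq_one_comm.1 hYm
  have hXm := res_mul s hs X hX
  have hXm' : (X + s • (1 : Matrix (Fin n) (Fin n) ℂ)) * res s X = 1 := mul_eq_one_comm.1 hXm
  have hXh : (res s X)ᴴ = res s X :=
    (cfc_predicate (R := ℝ) (p := IsSelfAdjoint) (fun x : ℝ => (s + x)⁻¹) X).isHermitian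
  have hYh : (res s Y)ᴴ = res s Y :=
    (cfc_predicate (R := ℝ) (p := IsSelfAdjoint) (fun x : ℝ => (s + x)⁻¹) Y).isHermitian
  set P := X + s • (1 : Matrix (Fin n) (Fin n) ℂ) with hP
  set Q := Y + s • (1 : Matrix (Fin n) (Fin n) ℂ) with hQ
  apply cnt (X - Y) W η hW hH (res s Y * E)
  intro α hα hne
  set v := E *ᵥ α with hv
  set x := res s Y *ᵥ v with hx
  have hxe : (res s Y * E) *ᵥ α = x := by
    rw [← Matrix.mulVec_mulVec]
  rw [hxe]
  have hQx : Q *ᵥ x = v := by
    rw [hx, Matrix.mulVec_mulVec, hYm', Matrix.one_mulVec]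
  have hv0 : v ≠ 0 := by
    intro h0
    have h1 := ns_unitary E hE α
    rw [← hv, h0] at h1
    have h2 := ns_pos α hne
    rw [← h1] at h2
    simp [ns] at h2
  have hx0 : x ≠ 0 := by
    intro h0
    apply hv0
    rw [← hQx, h0, Matrix.mulVec_zero]
  have hm := ns_pos x hx0
  have hqx : qf Q x = qf Y x + s * ns x := qf_shift s Y x
  have hpx : qf P x = qf X x + s * ns x := qf_shift s X x
  have hY0 := qf_nonneg Y hY x
  have hX0 := qf_nonneg X hX x
  have hsm : 0 < s * ns x := mul_pos hs hm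
  have hq0 : 0 < qf Q x := by linarith
  have hp0 : 0 < qf P x := by linarith
  -- the hypothesis
  have hyp : d / (s * (s + d)) * ns v < qf (res s Y) v - qf (res s X) v := by
    rw [← qf_sub, hT, ← hE_form E hE t α]
    rw [hv, ns_unitary E hE]
    unfold ns
    rw [Finset.mul_sum]
    obtain ⟨b, hb⟩ := Function.ne_iff.1 hne
    have hbJ : b ∈ Finset.univ.filter (fun a => d / (s * (s + d)) < t a) := by
      by_contra h
      exact hb (hα b h)
    apply Finset.sum_lt_sum
    · intro a _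
      by_cases ha : a ∈ Finset.univ.filter (fun a => d / (s * (s + d)) < t a)
      · rw [Finset.mem_filter] at ha
        exact mul_le_mul_of_nonneg_right ha.2.le (by positivity)
      · rw [hα a ha]
        simp
    · refine ⟨b, Finset.mem_univ _, ?_⟩
      rw [Finset.mem_filter] at hbJ
      have hb' : 0 < ‖α b‖ ^ 2 := by
        have := norm_pos_iff.2 hb
        positivity
      exact mul_lt_mul_of_pos_right hbJ.2 hb'
  have e1 : qf (res s Y) v = qf Q x := by
    rw [qf_eq_ip, qf_eq_ip, ← hx, hQx, ip_comm]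
  have e2 : qf Q x ^ 2 / ns x ≤ ns v := by
    rw [div_le_iff₀ hm]
    -- Cauchy-Schwarz
    have h1 : 0 ≤ ns ((ns x) • v + (-(qf Q x)) • x) := ns_nonneg _
    have h2 : ip x v = qf Q x := by rw [qf_eq_ip, hQx]
    have h3 : ns ((ns x) • v + (-(qf Q x)) • x) =
        ns x * (ns v * ns x - qf Q x ^ 2) := by
      rw [← ip_self]
      rw [ip_add_left, ip_add_right, ip_add_right, ip_smul_left, ip_smul_left, ip_smul_left,
        ip_smul_left, ip_smul_right, ip_smul_right, ip_smul_right, ip_smul_right, ip_self, ip_self,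
        ip_comm v x, h2]
      ring
    rw [h3] at h1
    have h4 := nonneg_of_mul_nonneg_right h1 hm
    linarith
  have e3 : qf Q x ^ 2 / qf P x ≤ qf (res s X) v := by
    rw [div_le_iff₀ hp0]
    set w := res s X *ᵥ v with hw
    have hPw : P *ᵥ w = v := by
      rw [hw, Matrix.mulVec_mulVec, hXm', Matrix.one_mulVec]
    have h2 : ip x v = qf Q x := by rw [qf_eq_ip, hQx]
    have h5 : ip w (P *ᵥ x) = ip x v := by
      have hPh : Pᴴ = P := by
        rw [hP, Matrix.conjTranspose_add, hX.1.eq, Matrix.conjTranspose_smul]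
        simp
      rw [ip_herm P hPh, hPw, ip_comm]
    have h1 : 0 ≤ qf P ((qf P x) • w + (-(qf Q x)) • x) :=
      qf_nonneg P (shift_posDef s hs X hX).posSemidef _
    have h3 : qf P ((qf P x) • w + (-(qf Q x)) • x) =
        qf P x * (qf (res s X) v * qf P x - qf Q x ^ 2) := by
      rw [qf_eq_ip P ((qf P x) • w + (-(qf Q x)) • x), Matrix.mulVec_add, Matrix.mulVec_smul,
        Matrix.mulVec_smul, hPw]
      rw [ip_add_left, ip_add_right, ip_add_right, ip_smul_left, ip_smul_left, ip_smul_left,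
        ip_smul_left, ip_smul_right, ip_smul_right, ip_smul_right, ip_smul_right, h5, h2,
        ← qf_eq_ip, ip_comm w v, hw, ← qf_eq_ip]
      ring
    rw [h3] at h1
    have h4 := nonneg_of_mul_nonneg_right h1 hp0
    linarith
  rw [e1] at hyp
  have hfin := num_ineq (qf P x) (qf Q x) (ns x) (ns v) (qf (res s X) v) s d _ hp0 hq0 hm hs hd rfl
    (by linarith) e2 e3 hyp
  rw [qf_sub]
  linarith

/-- Ky Fan type bound for the difference of the kernels `kg s` -/
theorem stepA (X Y V W : Matrix (Fin n) (Fin n) ℂ) (η : Fin n → ℝ) (hX : X.PosSemidef)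
    (hY : Y.PosSemidef) (hV : Vᴴ * V = 1) (hW : Wᴴ * W = 1) (hH : X - Y = W * dm η * Wᴴ)
    (hη : Antitone (fun i => |η i|)) (s : ℝ) (hs : 0 < s) (T : Finset (Fin n)) :
    ∑ i ∈ T, |dg V (cfc (kg s) X - cfc (kg s) Y) i| ≤ top (fun j => kg s |η j|) T.card := by
  have hV' : V * Vᴴ = 1 := mul_eq_one_comm.1 hV
  have e0 : cfc (kg s) X - cfc (kg s) Y = res s Y - res s X := by
    rw [cfc_kg s X hX, cfc_kg s Y hY]
    abel
  have hXh : (res s X).IsHermitian :=
    (cfc_predicate (R := ℝ) (p := IsSelfAdjoint) (fun x : ℝ => (s + x)⁻¹) X).isHermitian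
  have hYh : (res s Y).IsHermitian :=
    (cfc_predicate (R := ℝ) (p := IsSelfAdjoint) (fun x : ℝ => (s + x)⁻¹) Y).isHermitian
  obtain ⟨E, t, hE, hT, -⟩ := exists_eigenbasis _ (hYh.sub hXh)
  have hE' : E * Eᴴ = 1 := mul_eq_one_comm.1 hE
  have hneg : ∀ (M F : Matrix (Fin n) (Fin n) ℂ) (l : Fin n → ℝ) (M' : Matrix (Fin n) (Fin n) ℂ),
      M = F * dm l * Fᴴ → M' = -M → M' = F * dm (fun i => -l i) * Fᴴ := by
    intro M F l M' h1 h2
    have e3 : dm (fun i => -l i) = -dm l := by
      unfold dm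
      rw [Matrix.diagonal_neg]
      congr 1
      funext i
      push_cast
      rfl
    rw [h2, h1, e3, Matrix.mul_neg, Matrix.neg_mul]
  have hkg : ∀ x : ℝ, 0 ≤ x → kg s x = x / (s * (s + x)) := by
    intro x hx
    unfold kg
    have h2 : s + x ≠ 0 := by linarith
    field_simp
    ring
  have hcount : ∀ j : Fin n, (Finset.univ.filter (fun a => kg s |η j| < |t a|)).card ≤ (j : ℕ) := by
    intro j
    refine count_two η hη j _ (Finset.univ.filter (fun a => kg s |η j| < t a))
      (Finset.univ.filter (fun a => kg s |η j| < -t a)) ?_ ?_ ?_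
    · intro a ha
      rw [Finset.mem_filter] at ha
      rw [Finset.mem_union, Finset.mem_filter, Finset.mem_filter]
      rcases lt_abs.1 ha.2 with h | h
      · exact Or.inl ⟨Finset.mem_univ _, h⟩
      · exact Or.inr ⟨Finset.mem_univ _, h⟩
    · have h := countA X Y W E η t hX hY hW hH s |η j| hs (abs_nonneg _) hE hT
      rw [← hkg _ (abs_nonneg _)] at h
      exact h
    · have h := countA Y X W E (fun i => -η i) (fun i => -t i) hY hX hW
        (hneg _ W η _ hH (by abel)) s |η j| hs (abs_nonneg _) hE (hneg _ E t _ hT (by abel))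
      rw [← hkg _ (abs_nonneg _)] at h
      exact h
  have hanti : Antitone (fun j => kg s |η j|) := by
    intro i j hij
    have h2 := hη hij
    simp only at h2
    show s⁻¹ - (s + |η j|)⁻¹ ≤ s⁻¹ - (s + |η i|)⁻¹
    have h3 := abs_nonneg (η j)
    have h4 : (s + |η i|)⁻¹ ≤ (s + |η j|)⁻¹ := inv_anti₀ (by linarith) (by linarith)
    linarith
  have hkg0 : ∀ j, 0 ≤ kg s |η j| := by
    intro j
    rw [hkg _ (abs_nonneg _)]
    positivity
  set p : Fin n → ℝ := fun a => ∑ i ∈ T, ‖(Eᴴ * V) a i‖ ^ 2 with hp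
  have hG : (Eᴴ * V)ᴴ * (Eᴴ * V) = 1 := by
    rw [Matrix.conjTranspose_mul, Matrix.conjTranspose_conjTranspose]
    calc Vᴴ * E * (Eᴴ * V) = Vᴴ * (E * Eᴴ) * V := by simp only [Matrix.mul_assoc]
      _ = 1 := by rw [hE', Matrix.mul_one, hV]
  have hG' : (Eᴴ * V) * (Eᴴ * V)ᴴ = 1 := mul_eq_one_comm.1 hG
  have hp0 : ∀ a, 0 ≤ p a := fun a => Finset.sum_nonneg (fun i _ => by positivity)
  have hp1 : ∀ a, p a ≤ 1 := by
    intro a
    rw [← unitary_row (Eᴴ * V) hG' a]
    exact Finset.sum_le_sum_of_subset_of_nonneg (Finset.subset_univ _)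
      (fun i _ _ => by positivity)
  have hpk : ∑ a, p a ≤ (T.card : ℝ) := by
    rw [hp, Finset.sum_comm]
    have : ∀ i ∈ T, ∑ a, ‖(Eᴴ * V) a i‖ ^ 2 = 1 := fun i _ => unitary_col _ hG i
    rw [Finset.sum_congr rfl this]
    simp
  have hfin := le_top_of_count (fun a => |t a|) (fun j => kg s |η j|) p hanti hkg0
    hp0 hp1 T.card hpk hcount
  calc ∑ i ∈ T, |dg V (cfc (kg s) X - cfc (kg s) Y) i|
      = ∑ i ∈ T, |∑ a, t a * ‖(Eᴴ * V) a i‖ ^ 2| := by
        rw [e0, hT]
        simp only [dg_form]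
    _ ≤ ∑ i ∈ T, ∑ a, |t a| * ‖(Eᴴ * V) a i‖ ^ 2 := by
        refine Finset.sum_le_sum (fun i _ => (Finset.abs_sum_le_sum_abs _ _).trans ?_)
        refine le_of_eq (Finset.sum_congr rfl (fun a _ => ?_))
        rw [abs_mul, abs_of_nonneg (by positivity : (0 : ℝ) ≤ ‖(Eᴴ * V) a i‖ ^ 2)]
    _ = ∑ a, |t a| * p a := by
        rw [Finset.sum_comm]
        refine Finset.sum_congr rfl (fun a _ => ?_)
        rw [← Finset.mul_sum]
    _ ≤ top (fun j => kg s |η j|) T.card := hfin

end Pool.Agent.J4H86.PMH
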