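import Mathlib
import Pool.Agent.J4H86.PMH.StepA

set_option autoImplicit false

open Matrix MeasureTheory
open scoped BigOperators ComplexOrder ENNReal

namespace Pool.Agent.J4H86.PMH

open Pool.Agent.N95.PM

variable {n : ℕ}

/-- integral representation of `F` through the kernel `k` -/
def Rep (θ c : ℝ) (k : ℝ → ℝ → ℝ) (F : ℝ → ℝ) : Prop :=
  ∀ x : ℝ, 0 ≤ x → IntegrableOn (fun s => c * s ^ θ * k s x) (Set.Ioi 0) ∧
    F x = ∫ s in Set.Ioi 0, c * s ^ θ * k s x

theorem rep_kg (θ : ℝ) (hθ : θ ∈ Set.Ioo (0 : ℝ) 1) :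
    ∃ c : ℝ, 0 < c ∧ Rep θ c kg (fun x => x ^ θ) ∧ Rep θ c kf (fun x => x ^ (1 + θ)) := by
  have hpos := Real.integral_rpowIntegrand₀₁_one_pos hθ
  set I := ∫ t in Set.Ioi 0, Real.rpowIntegrand₀₁ θ t 1 with hI
  have h1 : ∀ x : ℝ, 0 ≤ x → IntegrableOn (fun s => I⁻¹ * s ^ θ * kg s x) (Set.Ioi 0) ∧
      x ^ θ = ∫ s in Set.Ioi 0, I⁻¹ * s ^ θ * kg s x := by
    intro x hx
    have e : (fun s => I⁻¹ * s ^ θ * kg s x) = fun s => I⁻¹ * Real.rpowIntegrand₀₁ θ s x := by
      funext s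
      unfold kg Real.rpowIntegrand₀₁
      ring
    rw [e]
    refine ⟨(Real.integrableOn_rpowIntegrand₀₁_Ioi hθ hx).const_mul _, ?_⟩
    rw [integral_const_mul]
    exact Real.rpow_eq_const_mul_integral hθ hx
  refine ⟨I⁻¹, inv_pos.2 hpos, h1, ?_⟩
  intro x hx
  have e : (fun s => I⁻¹ * s ^ θ * kf s x) = fun s => x * (I⁻¹ * s ^ θ * kg s x) := by
    funext s
    unfold kf kg
    ring
  rw [e]
  refine ⟨(h1 x hx).1.const_mul _, ?_⟩
  rw [integral_const_mul, ← (h1 x hx).2]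
  rcases hx.eq_or_lt with h0 | h0
  · rw [← h0, zero_mul]
    exact Real.zero_rpow (by linarith [hθ.1])
  · exact Real.rpow_one_add' hx (by linarith [hθ.1])

theorem int_cfc (θ c : ℝ) (k : ℝ → ℝ → ℝ) (F : ℝ → ℝ) (hR : Rep θ c k F)
    (X V : Matrix (Fin n) (Fin n) ℂ) (hX : X.PosSemidef) (i : Fin n) :
    IntegrableOn (fun s => c * s ^ θ * dg V (cfc (k s) X) i) (Set.Ioi 0) ∧
      dg V (cfc F X) i = ∫ s in Set.Ioi 0, c * s ^ θ * dg V (cfc (k s) X) i := by
  have e : (fun s => c * s ^ θ * dg V (cfc (k s) X) i) = fun s => ∑ a,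
      (c * s ^ θ * k s (hX.1.eigenvalues a)) *
        ‖((hX.1.eigenvectorUnitary : Matrix (Fin n) (Fin n) ℂ)ᴴ * V) a i‖ ^ 2 := by
    funext s
    rw [dg_cfc V X hX.1, Finset.mul_sum]
    refine Finset.sum_congr rfl (fun a _ => ?_)
    ring
  have hint : ∀ a ∈ Finset.univ, Integrable (fun s => (c * s ^ θ * k s (hX.1.eigenvalues a)) *
      ‖((hX.1.eigenvectorUnitary : Matrix (Fin n) (Fin n) ℂ)ᴴ * V) a i‖ ^ 2)
      (volume.restrict (Set.Ioi 0)) := by
    intro a _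
    exact (hR _ (hX.eigenvalues_nonneg a)).1.mul_const _
  rw [e]
  refine ⟨integrable_finset_sum _ hint, ?_⟩
  rw [integral_finset_sum _ hint, dg_cfc V X hX.1]
  refine Finset.sum_congr rfl (fun a _ => ?_)
  rw [integral_mul_const, ← (hR _ (hX.eigenvalues_nonneg a)).2]

/-- integration of Ky Fan type inequalities -/
theorem int_top (T : Finset (Fin n)) (x y : Fin n → ℝ) (xs ys : ℝ → Fin n → ℝ) (C : ℝ)
    (hx : ∀ i, IntegrableOn (fun s => xs s i) (Set.Ioi 0) ∧ x i = ∫ s in Set.Ioi 0, xs s i)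
    (hy : ∀ i, IntegrableOn (fun s => ys s i) (Set.Ioi 0) ∧ y i = ∫ s in Set.Ioi 0, ys s i)
    (h : ∀ s, 0 < s → ∑ i ∈ T, |xs s i| ≤ C * top (ys s) T.card) :
    ∑ i ∈ T, |x i| ≤ C * top y T.card := by
  have h1 : ∀ i ∈ T, |x i| ≤ ∫ s in Set.Ioi 0, |xs s i| := by
    intro i _
    rw [(hx i).2]
    exact abs_integral_le_integral_abs
  have h2 : ∑ i ∈ T, ∫ s in Set.Ioi 0, |xs s i| = ∫ s in Set.Ioi 0, ∑ i ∈ T, |xs s i| := by
    rw [integral_finset_sum]
    intro i _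
    exact (hx i).1.abs
  have h3 : C * top y T.card = ∫ s in Set.Ioi 0, C * top (ys s) T.card := by
    rw [integral_const_mul]
    congr 1
    unfold top
    rw [integral_finset_sum]
    · exact Finset.sum_congr rfl (fun i _ => (hy i).2)
    · intro i _
      exact (hy i).1
  have h4 : IntegrableOn (fun s => ∑ i ∈ T, |xs s i|) (Set.Ioi 0) :=
    integrable_finset_sum _ (fun i _ => (hx i).1.abs)
  have h5 : IntegrableOn (fun s => C * top (ys s) T.card) (Set.Ioi 0) := by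
    unfold top
    exact (integrable_finset_sum _ (fun i _ => (hy i).1)).const_mul _
  calc ∑ i ∈ T, |x i| ≤ ∑ i ∈ T, ∫ s in Set.Ioi 0, |xs s i| := Finset.sum_le_sum h1
    _ = ∫ s in Set.Ioi 0, ∑ i ∈ T, |xs s i| := h2
    _ ≤ ∫ s in Set.Ioi 0, C * top (ys s) T.card :=
        setIntegral_mono_on h4 h5 measurableSet_Ioi (fun s hs => h s hs)
    _ = C * top y T.card := h3.symm

theorem kyA (X Y V W : Matrix (Fin n) (Fin n) ℂ) (η : Fin n → ℝ) (hX : X.PosSemidef)
    (hY : Y.PosSemidef) (hV : Vᴴ * V = 1) (hW : Wᴴ * W = 1) (hH : X - Y = W * dm η * Wᴴ)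
    (hη : Antitone (fun i => |η i|)) (θ : ℝ) (hθ : θ ∈ Set.Ioo (0 : ℝ) 1) (T : Finset (Fin n)) :
    ∑ i ∈ T, |dg V (mpow X θ - mpow Y θ) i| ≤ top (fun j => |η j| ^ θ) T.card := by
  obtain ⟨c, hc, hR, -⟩ := rep_kg θ hθ
  have h := int_top T (fun i => dg V (mpow X θ - mpow Y θ) i) (fun j => |η j| ^ θ)
    (fun s i => c * s ^ θ * dg V (cfc (kg s) X - cfc (kg s) Y) i)
    (fun s j => c * s ^ θ * kg s |η j|) 1
    (by
      intro i
      have h1 := int_cfc θ c kg _ hR X V hX i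
      have h2 := int_cfc θ c kg _ hR Y V hY i
      have e : (fun s => c * s ^ θ * dg V (cfc (kg s) X - cfc (kg s) Y) i) =
          fun s => c * s ^ θ * dg V (cfc (kg s) X) i - c * s ^ θ * dg V (cfc (kg s) Y) i := by
        funext s
        rw [dg_sub, Pi.sub_apply]
        ring
      rw [e]
      refine ⟨h1.1.sub h2.1, ?_⟩
      rw [integral_sub h1.1 h2.1, ← h1.2, ← h2.2, dg_sub]
      rfl)
    (fun j => hR _ (abs_nonneg _))
    (by
      intro s hs
      have h1 := stepA X Y V W η hX hY hV hW hH hη s hs T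
      have h2 : 0 ≤ c * s ^ θ := mul_nonneg hc.le (Real.rpow_nonneg hs.le _)
      have h3 : ∑ i ∈ T, |c * s ^ θ * dg V (cfc (kg s) X - cfc (kg s) Y) i| =
          c * s ^ θ * ∑ i ∈ T, |dg V (cfc (kg s) X - cfc (kg s) Y) i| := by
        rw [Finset.mul_sum]
        refine Finset.sum_congr rfl (fun i _ => ?_)
        rw [abs_mul, abs_of_nonneg h2]
      have h4 : top (fun j => c * s ^ θ * kg s |η j|) T.card =
          c * s ^ θ * top (fun j => kg s |η j|) T.card := by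
        unfold top
        rw [Finset.mul_sum]
      show ∑ i ∈ T, |c * s ^ θ * dg V (cfc (kg s) X - cfc (kg s) Y) i| ≤
        1 * top (fun j => c * s ^ θ * kg s |η j|) T.card
      rw [h3, h4, one_mul]
      exact mul_le_mul_of_nonneg_left h1 h2)
  rw [one_mul] at h
  exact h

theorem kyB (A B V W : Matrix (Fin n) (Fin n) ℂ) (δ : Fin n → ℝ) (hA : A.PosSemidef)
    (hB : B.PosSemidef) (hV : Vᴴ * V = 1) (hW : Wᴴ * W = 1) (hH : B - A = W * dm δ * Wᴴ)
    (hδ : Antitone (fun i => |δ i|)) (θ τ : ℝ) (hθ : θ ∈ Set.Ioo (0 : ℝ) 1) (h0 : 0 ≤ τ)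
    (h1 : τ ≤ 1) (T : Finset (Fin n)) :
    ∑ i ∈ T, |dg V (τ • mpow B (1 + θ) + (1 - τ) • mpow A (1 + θ) -
      mpow (τ • B + (1 - τ) • A) (1 + θ)) i| ≤
      (1 - τ) * top (fun j => |δ j| ^ (1 + θ)) T.card := by
  obtain ⟨c, hc, -, hR⟩ := rep_kg θ hθ
  have hRR : (τ • B + (1 - τ) • A).PosSemidef :=
    (hB.smul h0).add (hA.smul (by linarith : 0 ≤ 1 - τ))
  refine int_top T (fun i => dg V (τ • mpow B (1 + θ) + (1 - τ) • mpow A (1 + θ) -
      mpow (τ • B + (1 - τ) • A) (1 + θ)) i) (fun j => |δ j| ^ (1 + θ))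
    (fun s i => c * s ^ θ * dg V (τ • cfc (kf s) B + (1 - τ) • cfc (kf s) A -
      cfc (kf s) (τ • B + (1 - τ) • A)) i)
    (fun s j => c * s ^ θ * kf s |δ j|) (1 - τ) ?_ (fun j => hR _ (abs_nonneg _)) ?_
  · intro i
    have h2 := int_cfc θ c kf _ hR B V hB i
    have h3 := int_cfc θ c kf _ hR A V hA i
    have h4 := int_cfc θ c kf _ hR _ V hRR i
    have e : (fun s => c * s ^ θ * dg V (τ • cfc (kf s) B + (1 - τ) • cfc (kf s) A -
        cfc (kf s) (τ • B + (1 - τ) • A)) i) =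
        fun s => (τ * (c * s ^ θ * dg V (cfc (kf s) B) i) +
          (1 - τ) * (c * s ^ θ * dg V (cfc (kf s) A) i)) -
          c * s ^ θ * dg V (cfc (kf s) (τ • B + (1 - τ) • A)) i := by
      funext s
      rw [dg_sub, dg_add, dg_smul, dg_smul, Pi.sub_apply, Pi.add_apply, Pi.smul_apply,
        Pi.smul_apply, smul_eq_mul, smul_eq_mul]
      ring
    rw [e]
    have i2 := h2.1.const_mul τ
    have i3 := h3.1.const_mul (1 - τ)
    refine ⟨(i2.add i3).sub h4.1, ?_⟩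
    have e1 : ∫ s in Set.Ioi 0, ((τ * (c * s ^ θ * dg V (cfc (kf s) B) i) +
          (1 - τ) * (c * s ^ θ * dg V (cfc (kf s) A) i)) -
          c * s ^ θ * dg V (cfc (kf s) (τ • B + (1 - τ) • A)) i) =
        (τ * dg V (mpow B (1 + θ)) i + (1 - τ) * dg V (mpow A (1 + θ)) i) -
          dg V (mpow (τ • B + (1 - τ) • A) (1 + θ)) i := by
      have j1 := integral_sub (i2.add i3) h4.1
      have j2 := integral_add i2 i3
      have k1 : dg V (mpow B (1 + θ)) i = _ := h2.2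
      have k2 : dg V (mpow A (1 + θ)) i = _ := h3.2
      have k3 : dg V (mpow (τ • B + (1 - τ) • A) (1 + θ)) i = _ := h4.2
      rw [k1, k2, k3, ← integral_const_mul, ← integral_const_mul, ← j2]
      exact j1
    rw [e1, dg_sub, dg_add, dg_smul, dg_smul]
    rfl
  · intro s hs
    have h1' := stepB A B V W δ hA hB hV hW hH hδ s τ hs h0 h1 T
    have h2 : 0 ≤ c * s ^ θ := mul_nonneg hc.le (Real.rpow_nonneg hs.le _)
    have h3 : ∑ i ∈ T, |c * s ^ θ * dg V (τ • cfc (kf s) B + (1 - τ) • cfc (kf s) A -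
        cfc (kf s) (τ • B + (1 - τ) • A)) i| =
        c * s ^ θ * ∑ i ∈ T, |dg V (τ • cfc (kf s) B + (1 - τ) • cfc (kf s) A -
        cfc (kf s) (τ • B + (1 - τ) • A)) i| := by
      rw [Finset.mul_sum]
      refine Finset.sum_congr rfl (fun i _ => ?_)
      rw [abs_mul, abs_of_nonneg h2]
    have h4 : top (fun j => c * s ^ θ * kf s |δ j|) T.card =
        c * s ^ θ * top (fun j => kf s |δ j|) T.card := by
      unfold top
      rw [Finset.mul_sum]
    show ∑ i ∈ T, |c * s ^ θ * dg V (τ • cfc (kf s) B + (1 - τ) • cfc (kf s) A -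
        cfc (kf s) (τ • B + (1 - τ) • A)) i| ≤
      (1 - τ) * top (fun j => c * s ^ θ * kf s |δ j|) T.card
    rw [h3, h4]
    calc c * s ^ θ * ∑ i ∈ T, |dg V (τ • cfc (kf s) B + (1 - τ) • cfc (kf s) A -
        cfc (kf s) (τ • B + (1 - τ) • A)) i|
        ≤ c * s ^ θ * ((1 - τ) * top (fun j => kf s |δ j|) T.card) :=
          mul_le_mul_of_nonneg_left h1' h2
      _ = (1 - τ) * (c * s ^ θ * top (fun j => kf s |δ j|) T.card) := by ring

/-- weak majorization and powers in the `l_q` norm, `1 ≤ q ≤ ∞` -/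
theorem wmP (x y : Fin n → ℝ) (hy : Antitone y) (hy0 : ∀ i, 0 ≤ y i)
    (h : ∀ S : Finset (Fin n), ∑ i ∈ S, |x i| ≤ top y S.card) (r : ℝ) (hr : 1 ≤ r)
    (q : ℝ≥0∞) (hq : 1 ≤ q) :
    ‖(WithLp.toLp q (fun i => |x i| ^ r) : PiLp q (fun _ : Fin n => ℝ))‖ ≤
      ‖(WithLp.toLp q (fun i => y i ^ r) : PiLp q (fun _ : Fin n => ℝ))‖ := by
  rcases eq_or_ne q ∞ with rfl | hqt
  · rw [PiLp.norm_eq_ciSup, PiLp.norm_eq_ciSup]
    rcases isEmpty_or_nonempty (Fin n) with hn | hn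
    · simp
    · obtain ⟨i0⟩ := hn
      have hn0 : 0 < n := lt_of_le_of_lt (Nat.zero_le _) i0.2
      have : Nonempty (Fin n) := ⟨i0⟩
      refine ciSup_le (fun i => ?_)
      have h1 : |x i| ≤ y ⟨0, hn0⟩ := by
        have h2 := h {i}
        rw [Finset.sum_singleton, Finset.card_singleton] at h2
        have h3 : top y 1 = y ⟨0, hn0⟩ := by
          unfold top
          have : Finset.univ.filter (fun j : Fin n => (j : ℕ) < 1) = {⟨0, hn0⟩} := by
            ext j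
            rw [Finset.mem_filter, Finset.mem_singleton, Fin.ext_iff]
            simp
          rw [this, Finset.sum_singleton]
        rwa [h3] at h2
      refine le_trans ?_ (le_ciSup (f := fun i =>
        ‖(WithLp.toLp ∞ (fun i => y i ^ r) : PiLp ∞ (fun _ : Fin n => ℝ)) i‖)
          (Set.finite_range _).bddAbove ⟨0, hn0⟩)
      show ‖|x i| ^ r‖ ≤ ‖y ⟨0, hn0⟩ ^ r‖
      rw [Real.norm_of_nonneg (Real.rpow_nonneg (abs_nonneg _) _),
        Real.norm_of_nonneg (Real.rpow_nonneg (hy0 _) _)]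
      exact Real.rpow_le_rpow (abs_nonneg _) h1 (by linarith)
  · have hq0 : 0 < q.toReal := ENNReal.toReal_pos (by positivity) hqt
    have hq1 : 1 ≤ q.toReal := by
      have := ENNReal.toReal_mono hqt hq
      simpa using this
    rw [PiLp.norm_eq_sum hq0, PiLp.norm_eq_sum hq0]
    refine Real.rpow_le_rpow (Finset.sum_nonneg (fun i _ => by positivity)) ?_ (by positivity)
    have h1 := wm x y hy hy0 h (r * q.toReal) (by nlinarith)
    calc ∑ i, ‖|x i| ^ r‖ ^ q.toReal = ∑ i, |x i| ^ (r * q.toReal) := by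
          refine Finset.sum_congr rfl (fun i _ => ?_)
          rw [Real.norm_of_nonneg (Real.rpow_nonneg (abs_nonneg _) _),
            ← Real.rpow_mul (abs_nonneg _)]
      _ ≤ ∑ i, y i ^ (r * q.toReal) := h1
      _ = ∑ i, ‖y i ^ r‖ ^ q.toReal := by
          refine Finset.sum_congr rfl (fun i _ => ?_)
          rw [Real.norm_of_nonneg (Real.rpow_nonneg (hy0 _) _), ← Real.rpow_mul (hy0 _)]

theorem dg_basis (W : Matrix (Fin n) (Fin n) ℂ) (δ : Fin n → ℝ) (hW : Wᴴ * W = 1) :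
    dg W (W * dm δ * Wᴴ) = δ := by
  funext i
  unfold dg
  have : Wᴴ * (W * dm δ * Wᴴ) * W = (Wᴴ * W) * dm δ * (Wᴴ * W) := by
    simp only [Matrix.mul_assoc]
  rw [this, hW, Matrix.one_mul, Matrix.mul_one]
  unfold dm
  rw [Matrix.diagonal_apply_eq, Complex.ofReal_re]

/-- the core inequality for the exponent `1 + θ`, `0 < θ < 1` -/
theorem core (q : ℝ≥0∞) (hq : 1 ≤ q) (A B : Matrix (Fin n) (Fin n) ℂ) (hA : A.PosDef)
    (hB : B.PosDef) (θ τ : ℝ) (hθ : θ ∈ Set.Ioo (0 : ℝ) 1) (h0 : 0 ≤ τ) (h1 : τ ≤ 1) :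
    schatten q (mpow (τ • B + (1 - τ) • A) (1 + θ) - mpow A (1 + θ)) ≤
      schatten q (mpow B (1 + θ) - mpow A (1 + θ)) := by
  have hfact : Fact (1 ≤ q) := ⟨hq⟩
  have hθ0 := hθ.1
  have hr1 : 1 < 1 + θ := by linarith
  obtain ⟨W, δ, hW, hH, hδ⟩ := exists_eigenbasis (B - A) (hB.1.sub hA.1)
  have hXs := mpow_posSemidef B hB (1 + θ)
  have hYs := mpow_posSemidef A hA (1 + θ)
  obtain ⟨W', η, hW', hH', hη⟩ := exists_eigenbasis (mpow B (1 + θ) - mpow A (1 + θ))
    (hXs.1.sub hYs.1)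
  set C := τ • mpow B (1 + θ) + (1 - τ) • mpow A (1 + θ) - mpow (τ • B + (1 - τ) • A) (1 + θ)
    with hC
  have hsm : ∀ (c : ℝ) (M : Matrix (Fin n) (Fin n) ℂ), M.IsHermitian → (c • M).IsHermitian := by
    intro c M hM
    rw [Matrix.IsHermitian, Matrix.conjTranspose_smul, hM.eq]
    simp
  have hCh : (-C).IsHermitian :=
    (((hsm _ _ hXs.1).add (hsm _ _ hYs.1)).sub (mpow_isHermitian _ _)).neg
  have hGh : (mpow B (1 + θ) - mpow A (1 + θ)).IsHermitian := hXs.1.sub hYs.1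
  have e : mpow (τ • B + (1 - τ) • A) (1 + θ) - mpow A (1 + θ) =
      τ • (mpow B (1 + θ) - mpow A (1 + θ)) + (-C) := by
    rw [hC]
    module
  -- norm of `C`
  have hC1 : schatten q (-C) ≤ (1 - τ) * schatten q (mpow B (1 + θ) - mpow A (1 + θ)) := by
    rw [schatten_eq_dg q hq (-C) hCh]
    set V := (hCh.eigenvectorUnitary : Matrix (Fin n) (Fin n) ℂ)
    have hV : Vᴴ * V = 1 := eigU_left _ hCh
    have hneg : dg V (-C) = -dg V C := by
      have h := dg_sub V 0 C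
      rw [zero_sub] at h
      rw [h]
      have : dg V 0 = 0 := by
        funext i
        simp [dg]
      rw [this, zero_sub]
    have h2 : ∀ T : Finset (Fin n), ∑ i ∈ T, |dg V (-C) i| ≤
        top (fun j => (1 - τ) * |δ j| ^ (1 + θ)) T.card := by
      intro T
      have h3 := kyB A B V W δ hA.posSemidef hB.posSemidef hV hW hH hδ θ τ hθ h0 h1 T
      have h4 : top (fun j => (1 - τ) * |δ j| ^ (1 + θ)) T.card =
          (1 - τ) * top (fun j => |δ j| ^ (1 + θ)) T.card := by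
        unfold top
        rw [Finset.mul_sum]
      rw [h4, hneg]
      simp only [Pi.neg_apply, abs_neg]
      exact h3
    have hanti : Antitone (fun j => (1 - τ) * |δ j| ^ (1 + θ)) := by
      intro i j hij
      exact mul_le_mul_of_nonneg_left
        (Real.rpow_le_rpow (abs_nonneg _) (hδ hij) (by linarith)) (by linarith)
    have h5 := wmP (dg V (-C)) (fun j => (1 - τ) * |δ j| ^ (1 + θ)) hanti
      (fun j => mul_nonneg (by linarith) (Real.rpow_nonneg (abs_nonneg _) _)) h2 1 le_rfl q hq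
    have h6 : ‖(WithLp.toLp q (dg V (-C)) : PiLp q (fun _ : Fin n => ℝ))‖ ≤
        ‖(WithLp.toLp q (fun i => |dg V (-C) i| ^ (1 : ℝ)) : PiLp q (fun _ : Fin n => ℝ))‖ := by
      apply norm_toLp_mono q hq
      intro i
      rw [Real.rpow_one, abs_abs]
    have h7 : ‖(WithLp.toLp q (fun i => ((1 - τ) * |δ i| ^ (1 + θ)) ^ (1 : ℝ)) :
        PiLp q (fun _ : Fin n => ℝ))‖ =
        (1 - τ) * ‖(WithLp.toLp q (fun i => |δ i| ^ (1 + θ)) : PiLp q (fun _ : Fin n => ℝ))‖ := by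
      have e1 : (WithLp.toLp q (fun i => ((1 - τ) * |δ i| ^ (1 + θ)) ^ (1 : ℝ)) :
          PiLp q (fun _ : Fin n => ℝ)) =
          (1 - τ) • (WithLp.toLp q (fun i => |δ i| ^ (1 + θ)) : PiLp q (fun _ : Fin n => ℝ)) := by
        rw [← WithLp.toLp_smul]
        congr 1
        funext i
        rw [Real.rpow_one]
        rfl
      rw [e1, norm_smul, Real.norm_of_nonneg (by linarith)]
    -- the reversed inequality
    have h8 : ∀ T : Finset (Fin n), ∑ i ∈ T, |δ i| ≤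
        top (fun j => |η j| ^ (1 / (1 + θ))) T.card := by
      intro T
      have hθ' : 1 / (1 + θ) ∈ Set.Ioo (0 : ℝ) 1 := by
        constructor
        · positivity
        · rw [div_lt_one (by linarith)]
          exact hr1
      have h9 := kyA _ _ W W' η hXs hYs hW hW' hH' hη (1 / (1 + θ)) hθ' T
      rw [mpow_mpow B hB, mpow_mpow A hA, mul_one_div_cancel (by linarith : (1 + θ) ≠ 0),
        mpow_one B hB, mpow_one A hA, hH, dg_basis W δ hW] at h9
      exact h9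
    have hanti2 : Antitone (fun j => |η j| ^ (1 / (1 + θ))) := by
      intro i j hij
      exact Real.rpow_le_rpow (abs_nonneg _) (hη hij) (by positivity)
    have h10 := wmP δ (fun j => |η j| ^ (1 / (1 + θ))) hanti2
      (fun j => Real.rpow_nonneg (abs_nonneg _) _) h8 (1 + θ) hr1.le q hq
    have h11 : ‖(WithLp.toLp q (fun i => (|η i| ^ (1 / (1 + θ))) ^ (1 + θ)) :
        PiLp q (fun _ : Fin n => ℝ))‖ ≤ ‖(WithLp.toLp q η : PiLp q (fun _ : Fin n => ℝ))‖ := by
      apply norm_toLp_mono q hq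
      intro i
      rw [← Real.rpow_mul (abs_nonneg _), one_div_mul_cancel (by linarith : (1 + θ) ≠ 0),
        Real.rpow_one, abs_abs]
    have h12 : ‖(WithLp.toLp q η : PiLp q (fun _ : Fin n => ℝ))‖ ≤
        schatten q (mpow B (1 + θ) - mpow A (1 + θ)) := by
      have h13 := pinch q hq _ hGh W' hW'
      rw [hH', dg_basis W' η hW'] at h13
      rw [← hH'] at h13
      exact h13
    calc ‖(WithLp.toLp q (dg V (-C)) : PiLp q (fun _ : Fin n => ℝ))‖
        ≤ (1 - τ) *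
          ‖(WithLp.toLp q (fun i => |δ i| ^ (1 + θ)) : PiLp q (fun _ : Fin n => ℝ))‖ := by
          rw [← h7]
          exact h6.trans h5
      _ ≤ (1 - τ) * schatten q (mpow B (1 + θ) - mpow A (1 + θ)) :=
          mul_le_mul_of_nonneg_left ((h10.trans h11).trans h12) (by linarith)
  rw [e]
  have h2 := schatten_add_le q hq _ _ (hsm τ _ hGh) hCh
  have h3 := schatten_smul q hq _ hGh τ h0
  linarith

end Pool.Agent.J4H86.PMH
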